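import Pool.Agent.V7H63.Deg.Low

/-!
# Straight-line programs, their gradients, and the bound of Bezout type
-/

set_option autoImplicit false

open MvPolynomial Finset

namespace Pool.Agent.V7H63.Deg

universe u

section span

variable {V : Type} {K : Type u} [Field K] {L : ℕ}

/-- the operands of the product gates of a program in which linear operations are free -/
def Prog (a b : Fin L → MvPolynomial V K) : Prop :=
  ∀ t, a t ∈ Submodule.span K ({1} ∪ Set.range X ∪ {h | ∃ i < t, h = a i * b i}) ∧
    b t ∈ Submodule.span K ({1} ∪ Set.range X ∪ {h | ∃ i < t, h = a i * b i})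

lemma span_split (q : Fin L → MvPolynomial V K) (p : Fin L → Prop) (y : MvPolynomial V K)
    (hy : y ∈ Submodule.span K ({1} ∪ Set.range X ∪ {h | ∃ i, p i ∧ h = q i})) :
    ∃ y0 ∈ Submodule.span K ({1} ∪ Set.range (X : V → MvPolynomial V K)), ∃ A : Fin L → K,
      (∀ i, ¬ p i → A i = 0) ∧ y = y0 + ∑ i, A i • q i := by
  classical
  induction hy using Submodule.span_induction with
  | mem h hh =>
    rcases hh with hh | ⟨i, hi, rfl⟩
    · exact ⟨h, Submodule.subset_span hh, 0, fun _ _ => rfl, by simp⟩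
    · refine ⟨0, Submodule.zero_mem _, fun j => if j = i then 1 else 0, ?_, ?_⟩
      · intro j hj
        simp only [ite_eq_right_iff, one_ne_zero, imp_false]
        rintro rfl
        exact hj hi
      · simp
  | zero => exact ⟨0, Submodule.zero_mem _, 0, fun _ _ => rfl, by simp⟩
  | add u v _ _ hu hv =>
    obtain ⟨u0, hu0, A, hA, rfl⟩ := hu
    obtain ⟨v0, hv0, B, hB, rfl⟩ := hv
    refine ⟨u0 + v0, Submodule.add_mem _ hu0 hv0, A + B, ?_, ?_⟩
    · intro i hi
      rw [Pi.add_apply, hA i hi, hB i hi, add_zero]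
    · simp only [Pi.add_apply, add_smul, Finset.sum_add_distrib]
      ring
  | smul c u _ hu =>
    obtain ⟨u0, hu0, A, hA, rfl⟩ := hu
    refine ⟨c • u0, Submodule.smul_mem _ _ hu0, c • A, ?_, ?_⟩
    · intro i hi
      rw [Pi.smul_apply, hA i hi, smul_zero]
    · rw [smul_add, Finset.smul_sum]
      simp only [Pi.smul_apply, smul_assoc]

lemma pderiv_affine (y : MvPolynomial V K)
    (hy : y ∈ Submodule.span K ({1} ∪ Set.range (X : V → MvPolynomial V K))) :
    ∃ w : V → K, ∀ v, pderiv v y = C (w v) := by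
  classical
  induction hy using Submodule.span_induction with
  | mem h hh =>
    rcases hh with hh | ⟨v, rfl⟩
    · rw [Set.mem_singleton_iff] at hh
      refine ⟨0, fun v => ?_⟩
      rw [hh, pderiv_one, Pi.zero_apply, map_zero]
    · refine ⟨fun v' => if v = v' then 1 else 0, fun v' => ?_⟩
      rw [pderiv_X]
      show _ = C (if v = v' then 1 else 0)
      by_cases h : v = v'
      · subst h
        simp
      · rw [if_neg h, map_zero, Pi.single_eq_of_ne h]
  | zero => exact ⟨0, fun v => by simp⟩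
  | add u v _ _ hu hv =>
    obtain ⟨w, hw⟩ := hu
    obtain ⟨w', hw'⟩ := hv
    exact ⟨w + w', fun v => by rw [map_add, hw, hw', Pi.add_apply, map_add]⟩
  | smul c u _ hu =>
    obtain ⟨w, hw⟩ := hu
    refine ⟨c • w, fun v => ?_⟩
    rw [Derivation.map_smul, hw, Pi.smul_apply, smul_eq_C_mul, smul_eq_mul, map_mul]

lemma degree_affine {U : Type} (x : V → MvPolynomial U K) (hx : ∀ v, (x v).totalDegree ≤ 1)
    (y : MvPolynomial V K)
    (hy : y ∈ Submodule.span K ({1} ∪ Set.range (X : V → MvPolynomial V K))) :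
    (aeval x y).totalDegree ≤ 1 := by
  have h1 : Submodule.span K ({1} ∪ Set.range (X : V → MvPolynomial V K)) ≤
      (restrictTotalDegree U K 1).comap (aeval x : MvPolynomial V K →ₐ[K] _).toLinearMap := by
    rw [Submodule.span_le]
    rintro h (hh | ⟨v, rfl⟩)
    · rw [Set.mem_singleton_iff] at hh
      rw [SetLike.mem_coe, Submodule.mem_comap, mem_restrictTotalDegree, AlgHom.toLinearMap_apply,
        hh, map_one, totalDegree_one]
      exact Nat.zero_le _
    · rw [SetLike.mem_coe, Submodule.mem_comap, mem_restrictTotalDegree, AlgHom.toLinearMap_apply,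
        aeval_X]
      exact hx v
  have h2 := h1 hy
  rwa [Submodule.mem_comap, mem_restrictTotalDegree, AlgHom.toLinearMap_apply] at h2

end span

section subst

variable {V V' : Type} {K : Type u} [Field K] {L : ℕ}

lemma aeval_mem_span (y : V → MvPolynomial V' K)
    (hy : ∀ v, y v ∈ Submodule.span K ({1} ∪ Set.range (X : V' → MvPolynomial V' K)))
    (W : Set (MvPolynomial V K)) (W' : Set (MvPolynomial V' K)) (hW : ∀ h ∈ W, aeval y h ∈ W')
    (q : MvPolynomial V K) (hq : q ∈ Submodule.span K ({1} ∪ Set.range X ∪ W)) :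
    aeval y q ∈ Submodule.span K ({1} ∪ Set.range X ∪ W') := by
  have h1 : Submodule.span K ({1} ∪ Set.range (X : V → MvPolynomial V K) ∪ W) ≤
      (Submodule.span K ({1} ∪ Set.range X ∪ W')).comap
        (aeval y : MvPolynomial V K →ₐ[K] _).toLinearMap := by
    rw [Submodule.span_le]
    rintro h ((hh | ⟨v, rfl⟩) | hh)
    · rw [Set.mem_singleton_iff] at hh
      rw [SetLike.mem_coe, Submodule.mem_comap, AlgHom.toLinearMap_apply, hh, map_one]
      exact Submodule.subset_span (Or.inl (Or.inl rfl))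
    · rw [SetLike.mem_coe, Submodule.mem_comap, AlgHom.toLinearMap_apply, aeval_X]
      exact Submodule.span_mono Set.subset_union_left (hy v)
    · rw [SetLike.mem_coe, Submodule.mem_comap, AlgHom.toLinearMap_apply]
      exact Submodule.subset_span (Or.inr (hW h hh))
  exact h1 hq

lemma Prog.aeval {a b : Fin L → MvPolynomial V K} (h : Prog a b) (y : V → MvPolynomial V' K)
    (hy : ∀ v, y v ∈ Submodule.span K ({1} ∪ Set.range (X : V' → MvPolynomial V' K))) :
    Prog (fun t => MvPolynomial.aeval y (a t)) (fun t => MvPolynomial.aeval y (b t)) := by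
  intro t
  have hW : ∀ q ∈ {h | ∃ i < t, h = a i * b i}, MvPolynomial.aeval y q ∈
      {h | ∃ i < t, h = MvPolynomial.aeval y (a i) * MvPolynomial.aeval y (b i)} := by
    rintro q ⟨i, hi, rfl⟩
    exact ⟨i, hi, map_mul _ _ _⟩
  exact ⟨aeval_mem_span y hy _ _ hW _ (h t).1, aeval_mem_span y hy _ _ hW _ (h t).2⟩

lemma output_aeval {a b : Fin L → MvPolynomial V K} (y : V → MvPolynomial V' K)
    (hy : ∀ v, y v ∈ Submodule.span K ({1} ∪ Set.range (X : V' → MvPolynomial V' K)))
    (q : MvPolynomial V K)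
    (hq : q ∈ Submodule.span K ({1} ∪ Set.range X ∪ {h | ∃ i, h = a i * b i})) :
    MvPolynomial.aeval y q ∈ Submodule.span K ({1} ∪ Set.range X ∪
      {h | ∃ i, h = MvPolynomial.aeval y (a i) * MvPolynomial.aeval y (b i)}) := by
  apply aeval_mem_span y hy _ _ _ _ hq
  rintro q ⟨i, rfl⟩
  exact ⟨i, map_mul _ _ _⟩

end subst

section degree

variable {ρ U : Type} {K : Type u} [Field K]

/-- polynomials of degree at most `n` in both groups of variables -/
noncomputable def Dg (ρ U : Type) (K : Type u) [Field K] (n : ℕ) :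
    Submodule K (MvPolynomial ρ (MvPolynomial U K)) :=
  (restrictTotalDegree (ρ ⊕ U) K n).comap (sumAlgEquiv K ρ U).symm.toLinearMap

lemma mem_Dg (n : ℕ) (q : MvPolynomial ρ (MvPolynomial U K)) :
    q ∈ Dg ρ U K n ↔ ((sumAlgEquiv K ρ U).symm q).totalDegree ≤ n := by
  rw [Dg, Submodule.mem_comap, mem_restrictTotalDegree]
  rfl

lemma Dg_mono {m n : ℕ} (h : m ≤ n) {q : MvPolynomial ρ (MvPolynomial U K)}
    (hq : q ∈ Dg ρ U K m) : q ∈ Dg ρ U K n := by
  rw [mem_Dg] at hq ⊢
  exact hq.trans h

lemma Dg_mul {m n : ℕ} {p q : MvPolynomial ρ (MvPolynomial U K)}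
    (hp : p ∈ Dg ρ U K m) (hq : q ∈ Dg ρ U K n) : p * q ∈ Dg ρ U K (m + n) := by
  rw [mem_Dg] at hp hq ⊢
  rw [map_mul]
  exact (totalDegree_mul _ _).trans (add_le_add hp hq)

lemma symm_C (p : MvPolynomial U K) :
    (sumAlgEquiv K ρ U).symm (C p) = rename Sum.inr p := by
  rw [AlgEquiv.symm_apply_eq]
  induction p using MvPolynomial.induction_on with
  | C a => rw [rename_C, sumAlgEquiv_C_inl]
  | add p q hp hq => rw [map_add, map_add, map_add, hp, hq]
  | mul_X p i hp => rw [map_mul, map_mul, map_mul, hp, rename_X, sumAlgEquiv_X_inr]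

lemma Dg_C {n : ℕ} {p : MvPolynomial U K} (hp : p.totalDegree ≤ n) : C p ∈ Dg ρ U K n := by
  rw [mem_Dg, symm_C]
  exact (totalDegree_rename_le _ _).trans hp

lemma Dg_CC (c : K) : (C (C c) : MvPolynomial ρ (MvPolynomial U K)) ∈ Dg ρ U K 0 :=
  Dg_C (by rw [totalDegree_C])

lemma Dg_X (r : ρ) : (X r : MvPolynomial ρ (MvPolynomial U K)) ∈ Dg ρ U K 1 := by
  rw [mem_Dg]
  have h1 : (sumAlgEquiv K ρ U).symm (X r) = X (Sum.inl r) := by
    rw [AlgEquiv.symm_apply_eq, sumAlgEquiv_X_inl]
  rw [h1, totalDegree_X]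

end degree

lemma exists_sol {S : Type u} [CommRing S] {ρ : Type} [Fintype ρ]
    (P : ρ → MvPolynomial ρ S) (rk : ρ → ℕ) (c d : ρ → S)
    (hP : Tri P rk c) (hcd : ∀ A, c A * d A = 1) :
    ∃ s : ρ → S, ∀ A, aeval s (P A) = 0 := by
  obtain ⟨τ, hτ⟩ := exists_tau P rk c d hP hcd
  refine ⟨fun A => constantCoeff (τ (X A)), fun A => ?_⟩
  have h0 : ∀ q, constantCoeff (τ q) = aeval (fun A => constantCoeff (τ (X A))) q := by
    intro q
    induction q using MvPolynomial.induction_on with
    | C a =>
      have : τ (C a) = C a := by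
        have := τ.commutes a
        rwa [algebraMap_eq] at this
      rw [this, constantCoeff_C]
      simp
    | add p q hp hq => rw [map_add, map_add, map_add, hp, hq]
    | mul_X p i hp => rw [map_mul, map_mul, map_mul, hp, aeval_X]
  rw [← h0, hτ]
  simp

section eqs

variable {V U : Type} {K : Type u} [Field K] {L : ℕ}

/-- an operand, as a form in the products -/
noncomputable def oper (a0 : Fin L → MvPolynomial U K) (A : Fin L → Fin L → K) (t : Fin L) :
    MvPolynomial (Fin L ⊕ Fin L) (MvPolynomial U K) :=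
  C (a0 t) + ∑ s, C (C (A t s)) * X (Sum.inl s)

/-- partial derivatives of products -/
noncomputable def kap (a0 b0 : Fin L → MvPolynomial U K) (A B : Fin L → Fin L → K)
    (w w' : K) (s : Fin L) : MvPolynomial (Fin L ⊕ Fin L) (MvPolynomial U K) :=
  C (C w) * oper b0 B s + C (C w') * oper a0 A s

/-- the equations -/
noncomputable def eqs (a0 b0 : Fin L → MvPolynomial U K) (A B : Fin L → Fin L → K)
    (O : Fin L → K) : Fin L ⊕ Fin L → MvPolynomial (Fin L ⊕ Fin L) (MvPolynomial U K) :=
  Sum.elim (fun t => X (Sum.inl t) - oper a0 A t * oper b0 B t)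
    (fun t => X (Sum.inr t) - C (C (O t)) -
      ∑ s, X (Sum.inr s) * kap a0 b0 A B (A s t) (B s t) s)

/-- the rank -/
def rnk (L : ℕ) : Fin L ⊕ Fin L → ℕ := Sum.elim (fun t => t.1) (fun t => 2 * L - t.1)

variable (a0 b0 : Fin L → MvPolynomial U K) (A B : Fin L → Fin L → K) (O : Fin L → K)

lemma oper_congr (hA : ∀ t s, ¬ s < t → A t s = 0) (t : Fin L)
    (f g : Fin L ⊕ Fin L → MvPolynomial (Fin L ⊕ Fin L) (MvPolynomial U K))
    (h : ∀ s < t, f (Sum.inl s) = g (Sum.inl s)) :
    aeval f (oper a0 A t) = aeval g (oper a0 A t) := by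
  rw [oper, map_add, map_add, map_sum, map_sum]
  congr 1
  · rw [← algebraMap_eq, AlgHom.commutes, AlgHom.commutes]
  · apply Finset.sum_congr rfl
    intro s _
    rw [map_mul, map_mul, aeval_X, aeval_X]
    by_cases hs : s < t
    · rw [h s hs, aeval_C, aeval_C]
    · rw [hA t s hs, map_zero, map_zero, map_zero, map_zero, zero_mul, zero_mul]

lemma tri_eqs (hA : ∀ t s, ¬ s < t → A t s = 0) (hB : ∀ t s, ¬ s < t → B t s = 0) :
    Tri (eqs a0 b0 A B O) (rnk L) (fun _ => 1) := by
  intro r f g h
  rcases r with t | t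
  · have h1 : ∀ s < t, f (Sum.inl s) = g (Sum.inl s) := by
      intro s hs
      exact h (Sum.inl s) hs
    simp only [eqs, Sum.elim_inl, map_sub, map_mul, aeval_X]
    rw [oper_congr a0 A hA t f g h1, oper_congr b0 B hB t f g h1, map_one]
    ring
  · have h1 : ∀ s, f (Sum.inl s) = g (Sum.inl s) := by
      intro s
      apply h (Sum.inl s)
      simp only [rnk, Sum.elim_inl, Sum.elim_inr]
      have := s.2
      have := t.2
      omega
    have h2 : ∀ s, t < s → f (Sum.inr s) = g (Sum.inr s) := by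
      intro s hs
      apply h (Sum.inr s)
      simp only [rnk, Sum.elim_inr]
      have := s.2
      have : t.1 < s.1 := hs
      omega
    simp only [eqs, Sum.elim_inr, map_sub, aeval_X, map_sum, map_mul]
    have h3 : ∀ s, f (Sum.inr s) * aeval f (kap a0 b0 A B (A s t) (B s t) s) =
        g (Sum.inr s) * aeval g (kap a0 b0 A B (A s t) (B s t) s) := by
      intro s
      by_cases hs : t < s
      · rw [h2 s hs, kap, map_add, map_add, map_mul, map_mul, map_mul, map_mul,
          oper_congr a0 A hA s f g (fun s _ => h1 s), oper_congr b0 B hB s f g (fun s _ => h1 s)]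
        simp only [aeval_C]
      · rw [kap, hA s t hs, hB s t hs]
        simp
    rw [Finset.sum_congr rfl (fun s _ => h3 s), map_one]
    simp only [aeval_C]
    ring

lemma oper_mem (ha : ∀ t, (a0 t).totalDegree ≤ 1) (t : Fin L) :
    oper a0 A t ∈ Dg (Fin L ⊕ Fin L) U K 1 := by
  apply Submodule.add_mem
  · exact Dg_C (ha t)
  · apply Submodule.sum_mem
    intro s _
    exact Dg_mono (by norm_num) (Dg_mul (Dg_CC _) (Dg_X _))

lemma kap_mem (ha : ∀ t, (a0 t).totalDegree ≤ 1) (hb : ∀ t, (b0 t).totalDegree ≤ 1)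
    (w w' : K) (s : Fin L) : kap a0 b0 A B w w' s ∈ Dg (Fin L ⊕ Fin L) U K 1 := by
  apply Submodule.add_mem
  · exact Dg_mono (by norm_num) (Dg_mul (Dg_CC _) (oper_mem b0 B hb s))
  · exact Dg_mono (by norm_num) (Dg_mul (Dg_CC _) (oper_mem a0 A ha s))

lemma eqs_mem (ha : ∀ t, (a0 t).totalDegree ≤ 1) (hb : ∀ t, (b0 t).totalDegree ≤ 1)
    (r : Fin L ⊕ Fin L) : eqs a0 b0 A B O r ∈ Dg (Fin L ⊕ Fin L) U K 2 := by
  rcases r with t | t
  · apply Submodule.sub_mem
    · exact Dg_mono (by norm_num) (Dg_X _)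
    · exact Dg_mono (by norm_num) (Dg_mul (oper_mem a0 A ha t) (oper_mem b0 B hb t))
  · apply Submodule.sub_mem
    · apply Submodule.sub_mem
      · exact Dg_mono (by norm_num) (Dg_X _)
      · exact Dg_mono (by norm_num) (Dg_CC _)
    · apply Submodule.sum_mem
      intro s _
      exact Dg_mono (by norm_num) (Dg_mul (Dg_X _) (kap_mem a0 b0 A B ha hb _ _ s))

end eqs

/-- **The bound for programs.** -/
theorem adjoint_bound {V U μ : Type} [Fintype U] [Fintype μ] {K : Type u} [Field K] {L : ℕ}
    (a b : Fin L → MvPolynomial V K) (hP : Prog a b) (F0 : MvPolynomial V K)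
    (hF0 : F0 ∈ Submodule.span K ({1} ∪ Set.range X ∪ {h | ∃ i, h = a i * b i}))
    (x : V → MvPolynomial U K) (hx : ∀ v, (x v).totalDegree ≤ 1)
    (hμ : Fintype.card μ = Fintype.card U) (M : ℕ) (h : Fin M → MvPolynomial U K)
    (F : μ → MvPolynomial U K)
    (hF : ∀ m, F m ∈ Submodule.span K ({1} ∪ Set.range fun v => aeval x (pderiv v F0)))
    (hli : LinearIndependent K (fun p : Fin M × (μ → ℕ) => h p.1 * mon F p.2)) :
    M ≤ 2 ^ (Fintype.card U + 2 * L) := by
  classical
  -- coefficients
  have h1 := fun t => span_split (fun i => a i * b i) (fun i => i < t) (a t) (hP t).1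
  have h2 := fun t => span_split (fun i => a i * b i) (fun i => i < t) (b t) (hP t).2
  choose a1 ha1 A hA haA using h1
  choose b1 hb1 B hB hbB using h2
  obtain ⟨f1, hf1, O, -, hO⟩ := span_split (fun i => a i * b i) (fun _ => True) F0 (by
    simpa only [true_and] using hF0)
  choose wa hwa using fun t => pderiv_affine (a1 t) (ha1 t)
  choose wb hwb using fun t => pderiv_affine (b1 t) (hb1 t)
  obtain ⟨wf, hwf⟩ := pderiv_affine f1 hf1
  let a0 : Fin L → MvPolynomial U K := fun t => aeval x (a1 t)
  let b0 : Fin L → MvPolynomial U K := fun t => aeval x (b1 t)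
  have ha0 : ∀ t, (a0 t).totalDegree ≤ 1 := fun t => degree_affine x hx _ (ha1 t)
  have hb0 : ∀ t, (b0 t).totalDegree ≤ 1 := fun t => degree_affine x hx _ (hb1 t)
  let P := eqs a0 b0 A B O
  have hTri : Tri P (rnk L) (fun _ => 1) := tri_eqs a0 b0 A B O hA hB
  obtain ⟨s, hs⟩ := exists_sol P (rnk L) (fun _ => 1) (fun _ => 1) hTri (fun _ => one_mul 1)
  -- the values of the solution
  have hsm : ∀ (c : K) (q : MvPolynomial V K), aeval x (c • q) = C c * aeval x q := by
    intro c q
    rw [map_smul, smul_eq_C_mul]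
  have hop : ∀ (e0 : Fin L → MvPolynomial U K) (E : Fin L → Fin L → K) (t : Fin L),
      aeval s (oper e0 E t) = e0 t + ∑ j, C (E t j) * s (Sum.inl j) := by
    intro e0 E t
    rw [oper, map_add, map_sum, aeval_C]
    simp only [map_mul, aeval_X, aeval_C]
    rfl
  have hz : ∀ t : Fin L, s (Sum.inl t) = aeval x (a t * b t) := by
    rintro ⟨t, ht⟩
    induction t using Nat.strong_induction_on with
    | _ t ih =>
      have h3 := hs (Sum.inl ⟨t, ht⟩)
      simp only [P, eqs, Sum.elim_inl, map_sub, map_mul, aeval_X, sub_eq_zero] at h3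
      rw [h3, hop, hop, haA ⟨t, ht⟩, hbB ⟨t, ht⟩, map_mul, map_add, map_add, map_sum, map_sum]
      congr 1
      · congr 1
        apply Finset.sum_congr rfl
        intro j _
        rw [hsm]
        by_cases hj : j < ⟨t, ht⟩
        · rw [ih j.1 hj j.2]
        · rw [hA _ _ hj, map_zero, zero_mul, zero_mul]
      · congr 1
        apply Finset.sum_congr rfl
        intro j _
        rw [hsm]
        by_cases hj : j < ⟨t, ht⟩
        · rw [ih j.1 hj j.2]
        · rw [hB _ _ hj, map_zero, zero_mul, zero_mul]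
  have hsa : ∀ t, aeval s (oper a0 A t) = aeval x (a t) := by
    intro t
    rw [hop, haA t, map_add, map_sum]
    congr 1
    apply Finset.sum_congr rfl
    intro j _
    rw [hsm, hz]
  have hsb : ∀ t, aeval s (oper b0 B t) = aeval x (b t) := by
    intro t
    rw [hop, hbB t, map_add, map_sum]
    congr 1
    apply Finset.sum_congr rfl
    intro j _
    rw [hsm, hz]
  have hsk : ∀ (w w' : K) (t : Fin L), aeval s (kap a0 b0 A B w w' t) =
      C w * aeval x (b t) + C w' * aeval x (a t) := by
    intro w w' t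
    rw [kap, map_add, map_mul, map_mul, hsa, hsb, aeval_C, aeval_C]
    rfl
  have hlam : ∀ t : Fin L, s (Sum.inr t) = C (O t) + ∑ j, s (Sum.inr j) *
      (C (A j t) * aeval x (b j) + C (B j t) * aeval x (a j)) := by
    intro t
    have h3 := hs (Sum.inr t)
    simp only [P, eqs, Sum.elim_inr, map_sub, map_sum, map_mul, aeval_X, hsk, aeval_C] at h3
    have h4 : (algebraMap (MvPolynomial U K) (MvPolynomial U K)) (C (O t)) = C (O t) := rfl
    rw [h4] at h3
    linear_combination h3
  -- the derivatives of the products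
  have hD : ∀ (v : V) (t : Fin L), aeval x (pderiv v (a t * b t)) =
      (C (wa t v) * aeval x (b t) + C (wb t v) * aeval x (a t)) +
      ∑ j, (C (A t j) * aeval x (b t) + C (B t j) * aeval x (a t)) *
        aeval x (pderiv v (a j * b j)) := by
    intro v t
    have h3 : pderiv v (a t) = C (wa t v) + ∑ j, A t j • pderiv v (a j * b j) := by
      conv_lhs => rw [haA t]
      rw [map_add, map_sum, hwa]
      simp only [Derivation.map_smul]
    have h4 : pderiv v (b t) = C (wb t v) + ∑ j, B t j • pderiv v (a j * b j) := by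
      conv_lhs => rw [hbB t]
      rw [map_add, map_sum, hwb]
      simp only [Derivation.map_smul]
    rw [pderiv_mul, map_add, map_mul, map_mul, h3, h4, map_add, map_add, map_sum, map_sum]
    simp only [hsm, aeval_C, algebraMap_eq, add_mul, Finset.sum_add_distrib, mul_add,
      Finset.sum_mul, Finset.mul_sum]
    have h5 : ∑ j, aeval x (a t) * (C (B t j) * aeval x (pderiv v (a j * b j))) =
        ∑ j, C (B t j) * aeval x (a t) * aeval x (pderiv v (a j * b j)) :=
      Finset.sum_congr rfl fun j _ => by ring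
    have h6 : ∑ j, C (A t j) * aeval x (pderiv v (a j * b j)) * aeval x (b t) =
        ∑ j, C (A t j) * aeval x (b t) * aeval x (pderiv v (a j * b j)) :=
      Finset.sum_congr rfl fun j _ => by ring
    rw [h5, h6]
    ring
  have hgrad : ∀ v : V, aeval x (pderiv v F0) = C (wf v) + ∑ t, s (Sum.inr t) *
      (C (wa t v) * aeval x (b t) + C (wb t v) * aeval x (a t)) := by
    intro v
    rw [hO, map_add, map_sum, hwf, map_add, map_sum, aeval_C, algebraMap_eq]
    congr 1
    simp only [Derivation.map_smul, hsm]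
    have h3 : ∀ t, C (O t) * aeval x (pderiv v (a t * b t)) =
        s (Sum.inr t) * aeval x (pderiv v (a t * b t)) - ∑ j, s (Sum.inr j) *
          ((C (A j t) * aeval x (b j) + C (B j t) * aeval x (a j)) *
            aeval x (pderiv v (a t * b t))) := by
      intro t
      have h4 := hlam t
      have h5 : ∑ j, s (Sum.inr j) *
          ((C (A j t) * aeval x (b j) + C (B j t) * aeval x (a j)) *
            aeval x (pderiv v (a t * b t))) = (∑ j, s (Sum.inr j) *
          (C (A j t) * aeval x (b j) + C (B j t) * aeval x (a j))) *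
            aeval x (pderiv v (a t * b t)) := by
        rw [Finset.sum_mul]
        exact Finset.sum_congr rfl fun j _ => by ring
      rw [h5]
      linear_combination (-(aeval x (pderiv v (a t * b t)))) * h4
    rw [Finset.sum_congr rfl (fun t _ => h3 t), Finset.sum_sub_distrib, Finset.sum_comm,
      ← Finset.sum_sub_distrib]
    apply Finset.sum_congr rfl
    intro t _
    rw [← Finset.mul_sum, ← mul_sub]
    congr 1
    have h6 := hD v t
    linear_combination h6
  -- lifts of the functions
  let sl : MvPolynomial (Fin L ⊕ Fin L) (MvPolynomial U K) →ₗ[K] MvPolynomial U K :=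
    ((aeval s : MvPolynomial (Fin L ⊕ Fin L) (MvPolynomial U K) →ₐ[MvPolynomial U K] _
      ).restrictScalars K).toLinearMap
  have hsl : ∀ q, sl q = aeval s q := fun q => rfl
  have hspan : Submodule.span K ({1} ∪ Set.range fun v => aeval x (pderiv v F0)) ≤
      (Dg (Fin L ⊕ Fin L) U K 2).map sl := by
    rw [Submodule.span_le]
    rintro q (hq | ⟨v, rfl⟩)
    · rw [Set.mem_singleton_iff] at hq
      rw [hq]
      refine ⟨1, ?_, ?_⟩
      · have h3 := Dg_mono (Nat.zero_le 2) (Dg_CC (ρ := Fin L ⊕ Fin L) (U := U) (1 : K))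
        rwa [map_one, map_one] at h3
      · rw [hsl, map_one]
    · refine ⟨C (C (wf v)) + ∑ t, X (Sum.inr t) * kap a0 b0 A B (wa t v) (wb t v) t, ?_, ?_⟩
      · apply Submodule.add_mem
        · exact Dg_mono (by norm_num) (Dg_CC _)
        · apply Submodule.sum_mem
          intro t _
          exact Dg_mono (by norm_num) (Dg_mul (Dg_X _) (kap_mem a0 b0 A B ha0 hb0 _ _ t))
      · rw [hsl]
        show _ = aeval x (pderiv v F0)
        rw [hgrad, map_add, map_sum, aeval_C]
        simp only [map_mul, aeval_X, hsk]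
        rfl
  choose G hG hGs using fun m => hspan (hF m)
  have hGs' : ∀ m, aeval s (G m) = F m := fun m => hGs m
  have hel := elim_tri (K := K) h G P (rnk L) (fun _ => 1) (fun _ => 1) hTri
    (fun _ => one_mul 1) s hs (by
      simp only [hGs']
      exact hli)
  -- flatten
  let e := (sumAlgEquiv K (Fin L ⊕ Fin L) U).symm
  let Ψ : μ ⊕ (Fin L ⊕ Fin L) → MvPolynomial ((Fin L ⊕ Fin L) ⊕ U) K :=
    Sum.elim (fun m => e (G m)) (fun r => e (P r))
  have hfin := count_bound (K := K) (V := (Fin L ⊕ Fin L) ⊕ U) (ν := μ ⊕ (Fin L ⊕ Fin L))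
    (by rw [Fintype.card_sum, Fintype.card_sum (α := Fin L ⊕ Fin L), hμ, add_comm]) M (fun j => e (C (h j))) Ψ
    (by
      rintro (m | r)
      · exact (mem_Dg 2 _).1 (hG m)
      · exact (mem_Dg 2 _).1 (eqs_mem a0 b0 A B O ha0 hb0 r))
    (by
      let idx : Fin M × (μ ⊕ (Fin L ⊕ Fin L) → ℕ) → Fin M × (μ → ℕ) × (Fin L ⊕ Fin L → ℕ) :=
        fun p => (p.1, fun m => p.2 (Sum.inl m), fun r => p.2 (Sum.inr r))
      have hidx : Function.Injective idx := by
        rintro ⟨j, α⟩ ⟨j', α'⟩ hjj
        simp only [idx, Prod.mk.injEq] at hjj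
        ext1
        · exact hjj.1
        · funext i
          rcases i with i | i
          · exact congrFun hjj.2.1 i
          · exact congrFun hjj.2.2 i
      have h3 := hel.comp idx hidx
      have h4 := h3.map' e.toLinearMap (by
        rw [LinearMap.ker_eq_bot]
        exact e.injective)
      have h5 : (e.toLinearMap ∘ (fun p : Fin M × (μ → ℕ) × (Fin L ⊕ Fin L → ℕ) =>
          (C (h p.1) * mon G p.2.1 * mon P p.2.2 :
            MvPolynomial (Fin L ⊕ Fin L) (MvPolynomial U K))) ∘ idx) =
          fun p : Fin M × (μ ⊕ (Fin L ⊕ Fin L) → ℕ) => e (C (h p.1)) * mon Ψ p.2 := by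
        funext p
        simp only [Function.comp_apply, AlgEquiv.toLinearMap_apply, idx]
        rw [map_mul, map_mul, mul_assoc]
        congr 1
        have h6 : mon Ψ p.2 = (∏ m, e (G m) ^ p.2 (Sum.inl m)) *
            ∏ r, e (P r) ^ p.2 (Sum.inr r) := Fintype.prod_sum_type _
        rw [h6, mon, mon, map_prod, map_prod]
        simp only [map_pow]
      rw [h5] at h4
      exact h4)
  have hcard : Fintype.card ((Fin L ⊕ Fin L) ⊕ U) = Fintype.card U + 2 * L := by
    rw [Fintype.card_sum, Fintype.card_sum, Fintype.card_fin]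
    ring
  rwa [hcard] at hfin

end Pool.Agent.V7H63.Deg
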