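import Pool.Agent.V7H63.Deg.Count

/-!
# Powers of a generic linear form over products of elementary symmetric polynomials
-/

set_option autoImplicit false

open MvPolynomial Finset

namespace Pool.Agent.V7H63.Deg

universe u

/-- the elementary symmetric polynomials of the columns -/
noncomputable def E (K : Type u) [CommRing K] (r : ℕ) (J : Type) (p : J × Fin r) :
    MvPolynomial (J × Fin r) K :=
  rename (fun ρ => (p.1, ρ)) (esymm (Fin r) K (p.2 + 1))

section indep

variable (K : Type u) [CommRing K] (r : ℕ)

lemma E_inj_equiv {J J' : Type} (e : J ≃ J')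
    (h : Function.Injective (aeval (E K r J) : MvPolynomial (J × Fin r) K →ₐ[K] _)) :
    Function.Injective (aeval (E K r J') : MvPolynomial (J' × Fin r) K →ₐ[K] _) := by
  let ε : J × Fin r ≃ J' × Fin r := Equiv.prodCongr e (Equiv.refl _)
  have h1 : ∀ q : MvPolynomial (J × Fin r) K,
      aeval (E K r J') (rename ε q) = rename ε (aeval (E K r J) q) := by
    intro q
    induction q using MvPolynomial.induction_on with
    | C a => simp
    | add p q hp hq => rw [map_add, map_add, hp, hq, map_add, map_add]
    | mul_X p i hp =>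
      rw [map_mul, map_mul, hp, map_mul, map_mul, rename_X, aeval_X, aeval_X, E, E,
        rename_rename]
      rfl
  have h2 : ∀ q : MvPolynomial (J' × Fin r) K, ∃ p, rename ε p = q := by
    intro q
    refine ⟨rename ε.symm q, ?_⟩
    rw [rename_rename]
    simp
  intro p q hpq
  obtain ⟨p, rfl⟩ := h2 p
  obtain ⟨q, rfl⟩ := h2 q
  rw [h1, h1] at hpq
  rw [h (rename_injective _ ε.injective hpq)]

/-- separate the first column -/
def optEquiv (J : Type) (r : ℕ) : Option J × Fin r ≃ Fin r ⊕ (J × Fin r) where
  toFun p := p.1.elim (Sum.inl p.2) (fun j => Sum.inr (j, p.2))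
  invFun := Sum.elim (fun i => (none, i)) (fun p => (some p.1, p.2))
  left_inv := by rintro ⟨_ | j, i⟩ <;> rfl
  right_inv := by rintro (i | ⟨j, i⟩) <;> rfl

lemma esymm_inj (R : Type u) [CommRing R] : Function.Injective
    (aeval (fun i : Fin r => esymm (Fin r) R (i + 1)) : MvPolynomial (Fin r) R →ₐ[R] _) := by
  have h1 := esymmAlgHom_injective (σ := Fin r) (R := R) (n := r) (by simp)
  intro p q hpq
  apply h1
  apply Subtype.ext
  rw [esymmAlgHom_apply, esymmAlgHom_apply]
  exact hpq

lemma E_inj_option {J : Type}
    (h : Function.Injective (aeval (E K r J) : MvPolynomial (J × Fin r) K →ₐ[K] _)) :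
    Function.Injective (aeval (E K r (Option J)) :
      MvPolynomial (Option J × Fin r) K →ₐ[K] _) := by
  let Ψ : MvPolynomial (Option J × Fin r) K ≃ₐ[K]
      MvPolynomial (Fin r) (MvPolynomial (J × Fin r) K) :=
    (renameEquiv K (optEquiv J r)).trans (sumAlgEquiv K (Fin r) (J × Fin r))
  let Φ : MvPolynomial (Fin r) (MvPolynomial (J × Fin r) K) →ₐ[K]
      MvPolynomial (Fin r) (MvPolynomial (J × Fin r) K) :=
    ((aeval (fun i : Fin r => esymm (Fin r) (MvPolynomial (J × Fin r) K) (i + 1)) :
      MvPolynomial (Fin r) (MvPolynomial (J × Fin r) K) →ₐ[MvPolynomial (J × Fin r) K]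
        _).restrictScalars K).comp (mapAlgHom (aeval (E K r J)))
  have hΦ : Function.Injective Φ := by
    have h1 : Function.Injective (mapAlgHom (aeval (E K r J)) :
        MvPolynomial (Fin r) (MvPolynomial (J × Fin r) K) →ₐ[K] _) := by
      intro p q hpq
      exact map_injective _ h hpq
    intro p q hpq
    simp only [Φ, AlgHom.comp_apply, AlgHom.restrictScalars_apply] at hpq
    exact h1 (esymm_inj r (MvPolynomial (J × Fin r) K) hpq)
  have hΨ1 : ∀ i, Ψ (X (none, i)) = X i := by
    intro i
    simp only [Ψ, AlgEquiv.trans_apply, renameEquiv_apply, rename_X]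
    exact sumAlgEquiv_X_inl _ _ _ _
  have hΨ2 : ∀ j i, Ψ (X (some j, i)) = C (X (j, i)) := by
    intro j i
    simp only [Ψ, AlgEquiv.trans_apply, renameEquiv_apply, rename_X]
    exact sumAlgEquiv_X_inr _ _ _ _
  have hΦ1 : ∀ i, Φ (X i) = esymm (Fin r) (MvPolynomial (J × Fin r) K) (i + 1) := by
    intro i
    simp only [Φ, AlgHom.comp_apply, mapAlgHom_apply, map_X, AlgHom.restrictScalars_apply,
      aeval_X]
  have hΦ2 : ∀ q, Φ (C q) = C (aeval (E K r J) q) := by
    intro q
    simp only [Φ, AlgHom.comp_apply, mapAlgHom_apply, AlgHom.restrictScalars_apply]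
    rw [map_C]
    simp [algebraMap_eq]
  have h1 : ∀ q, Ψ (aeval (E K r (Option J)) q) = Φ (Ψ q) := by
    intro q
    induction q using MvPolynomial.induction_on with
    | C a =>
      have h2 : ∀ a : K, (C a : MvPolynomial (Option J × Fin r) K) = algebraMap K _ a :=
        fun _ => rfl
      rw [h2, AlgHom.commutes, AlgEquiv.commutes, AlgHom.commutes]
    | add p q hp hq => rw [map_add, map_add, hp, hq, map_add, map_add]
    | mul_X p i hp =>
      have h2 : Ψ (E K r (Option J) i) = Φ (Ψ (X i)) := by
        rcases i with ⟨_ | j, i⟩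
        · rw [hΨ1, hΦ1, E]
          simp only [esymm, map_sum, map_prod, rename_X, hΨ1]
        · rw [hΨ2, hΦ2, aeval_X, E, E]
          simp only [esymm, map_sum, map_prod, rename_X, hΨ2]
      rw [map_mul, map_mul, hp, map_mul, map_mul, aeval_X, h2]
  intro p q hpq
  apply Ψ.injective
  apply hΦ
  rw [← h1, ← h1, hpq]

lemma E_injective (J : Type) [Finite J] :
    Function.Injective (aeval (E K r J) : MvPolynomial (J × Fin r) K →ₐ[K] _) := by
  induction J using Finite.induction_empty_option with
  | of_equiv e h => exact E_inj_equiv K r e h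
  | h_empty =>
    have h1 : AlgebraicIndependent K (E K r PEmpty) := by
      rw [algebraicIndependent_empty_type_iff]
      exact C_injective _ _
    exact h1
  | h_option h => exact E_inj_option K r h

end indep

section orbit

variable (K : Type u) [Field K] (r : ℕ) {J : Type}

/-- permute the variables of each column -/
def perms (g : J → Equiv.Perm (Fin r)) : J × Fin r ≃ J × Fin r where
  toFun p := (p.1, g p.1 p.2)
  invFun p := (p.1, (g p.1).symm p.2)
  left_inv := by rintro ⟨j, i⟩; simp
  right_inv := by rintro ⟨j, i⟩; simp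

lemma perms_E (g : J → Equiv.Perm (Fin r)) (p : J × Fin r) :
    rename (perms r g) (E K r J p) = E K r J p := by
  have h1 := rename_esymm (σ := Fin r) (R := K) (p.2 + 1) (g p.1)
  rw [E, rename_rename]
  conv_rhs => rw [← h1, rename_rename]
  rfl

theorem orbit_indep [Infinite K] [Fintype J] [DecidableEq J] :
    ∃ h : Fin (r.factorial ^ Fintype.card J) → MvPolynomial (J × Fin r) K,
      LinearIndependent K (fun p : Fin (r.factorial ^ Fintype.card J) × (J × Fin r → ℕ) =>
        h p.1 * mon (E K r J) p.2) := by
  classical
  obtain ⟨c⟩ : Nonempty (J × Fin r ↪ K) := by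
    obtain ⟨f⟩ := Infinite.natEmbedding K
    exact ⟨(Fintype.equivFin (J × Fin r)).toEmbedding.trans
      ((Fin.valEmbedding).trans (Infinite.natEmbedding K))⟩
  let H : MvPolynomial (J × Fin r) K := ∑ p, C (c p) * X p
  refine ⟨fun i => H ^ (i : ℕ), ?_⟩
  -- the conjugates of the linear form
  let f : (J → Equiv.Perm (Fin r)) → MvPolynomial (J × Fin r) K := fun g =>
    rename (perms r g) H
  have hf : Function.Injective f := by
    intro g g' hgg
    have h1 : ∀ (g : J → Equiv.Perm (Fin r)) (q : J × Fin r),
        eval (Pi.single q 1 : J × Fin r → K) (f g) = c ((perms r g).symm q) := by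
      intro g q
      simp only [f, H, map_sum, map_mul, rename_C, rename_X, eval_C, eval_X]
      rw [Finset.sum_eq_single ((perms r g).symm q)]
      · rw [Equiv.apply_symm_apply, Pi.single_eq_same, mul_one]
      · intro p _ hp
        rw [Pi.single_eq_of_ne, mul_zero]
        intro h2
        apply hp
        rw [← h2, Equiv.symm_apply_apply]
      · intro h2
        exact absurd (Finset.mem_univ _) h2
    have h2 : ∀ q, (perms r g).symm q = (perms r g').symm q := by
      intro q
      apply c.injective
      rw [← h1, ← h1, hgg]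
    funext j
    have h3 : ∀ i, (g j).symm i = (g' j).symm i := by
      intro i
      have h4 := h2 (j, i)
      exact (Prod.ext_iff.1 h4).2
    have h4 : (g j).symm = (g' j).symm := Equiv.ext h3
    exact Equiv.symm_bijective.injective h4
  have hcardG : (Finset.univ : Finset (J → Equiv.Perm (Fin r))).card =
      r.factorial ^ Fintype.card J := by
    rw [Finset.card_univ, Fintype.card_fun, Fintype.card_perm, Fintype.card_fin]
  rw [linearIndependent_iff']
  intro s g hg
  -- the coefficients
  let q : Fin (r.factorial ^ Fintype.card J) → MvPolynomial (J × Fin r) K := fun i =>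
    ∑ p ∈ s, if p.1 = i then monomial (Finsupp.equivFunOnFinite.symm p.2) (g p) else 0
  have hmon : ∀ (α : J × Fin r → ℕ) (a : K),
      aeval (E K r J) (monomial (Finsupp.equivFunOnFinite.symm α) a) =
        C a * mon (E K r J) α := by
    intro α a
    rw [aeval_monomial, mon, algebraMap_eq, Finsupp.prod_fintype _ _ (fun i => pow_zero _)]
    rfl
  have hsum : ∑ i : Fin (r.factorial ^ Fintype.card J),
      H ^ (i : ℕ) * aeval (E K r J) (q i) = 0 := by
    rw [← hg]
    have h1 : ∀ i : Fin (r.factorial ^ Fintype.card J), H ^ (i : ℕ) * aeval (E K r J) (q i) =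
        ∑ p ∈ s, if p.1 = i then g p • (H ^ (p.1 : ℕ) * mon (E K r J) p.2) else 0 := by
      intro i
      rw [map_sum, Finset.mul_sum]
      apply Finset.sum_congr rfl
      intro p _
      split_ifs with h
      · rw [hmon, smul_eq_C_mul, h]
        ring
      · rw [map_zero, mul_zero]
    rw [Finset.sum_congr rfl (fun i _ => h1 i), Finset.sum_comm]
    apply Finset.sum_congr rfl
    intro p _
    rw [Finset.sum_ite_eq, if_pos (Finset.mem_univ _)]
  have hfix : ∀ (g : J → Equiv.Perm (Fin r)) (q : MvPolynomial (J × Fin r) K),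
      rename (perms r g) (aeval (E K r J) q) = aeval (E K r J) q := by
    intro g q
    have h1 : (rename (perms r g) : MvPolynomial (J × Fin r) K →ₐ[K] _).comp
        (aeval (E K r J)) = aeval (E K r J) := by
      apply MvPolynomial.algHom_ext
      intro p
      rw [AlgHom.comp_apply, aeval_X, perms_E]
    exact DFunLike.congr_fun h1 q
  let P : Polynomial (MvPolynomial (J × Fin r) K) :=
    ∑ i : Fin (r.factorial ^ Fintype.card J), Polynomial.C (aeval (E K r J) (q i)) *
      Polynomial.X ^ (i : ℕ)
  have hP : P = 0 := by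
    apply Polynomial.eq_zero_of_degree_lt_of_eval_index_eq_zero (v := f)
      (s := (Finset.univ : Finset (J → Equiv.Perm (Fin r)))) hf.injOn
    · rw [hcardG]
      exact Polynomial.degree_sum_fin_lt _
    · intro g _
      rw [Polynomial.eval_finset_sum]
      have h1 : ∀ i : Fin (r.factorial ^ Fintype.card J),
          Polynomial.eval (f g) (Polynomial.C (aeval (E K r J) (q i)) *
            Polynomial.X ^ (i : ℕ)) =
          rename (perms r g) (H ^ (i : ℕ) * aeval (E K r J) (q i)) := by
        intro i
        rw [Polynomial.eval_mul, Polynomial.eval_C, Polynomial.eval_pow, Polynomial.eval_X,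
          map_mul, hfix, map_pow, mul_comm]
      rw [Finset.sum_congr rfl (fun i _ => h1 i), ← map_sum, hsum, map_zero]
  have hq : ∀ i, q i = 0 := by
    intro i
    apply E_injective K r J
    rw [map_zero]
    have h1 := congrArg (fun P => Polynomial.coeff P (i : ℕ)) hP
    simp only [P, Polynomial.finsetSum_coeff, Polynomial.coeff_C_mul, Polynomial.coeff_X_pow,
      Polynomial.coeff_zero] at h1
    rw [Finset.sum_eq_single i] at h1
    · simpa using h1
    · intro j _ hj
      rw [if_neg, mul_zero]
      intro h2
      exact hj (Fin.ext h2.symm)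
    · intro h2
      exact absurd (Finset.mem_univ _) h2
  intro p hp
  have h1 := congrArg (coeff (Finsupp.equivFunOnFinite.symm p.2)) (hq p.1)
  rw [coeff_zero, coeff_sum, Finset.sum_eq_single p] at h1
  · rw [if_pos rfl, coeff_monomial, if_pos rfl] at h1
    exact h1
  · intro p' _ hp'
    split_ifs with h2
    · rw [coeff_monomial, if_neg]
      intro h3
      apply hp'
      ext1
      · exact h2
      · exact Finsupp.equivFunOnFinite.symm.injective h3
    · exact coeff_zero _
  · intro h2
    exact absurd hp h2

end orbit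

end Pool.Agent.V7H63.Deg
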