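import Pool.Agent.V7H63.Deg.System
import Pool.Agent.V7H63.Deg.Adjoint
import Pool.Agent.V7H63.Deg.Orbit

/-!
# The bound for direct sums of permanental polynomials
-/

set_option autoImplicit false

open MvPolynomial Finset

namespace Pool.Agent.V7H63.Deg

universe u

section mapent

variable {r l : ℕ} {R R' : Type u} [CommRing R] [CommRing R']

lemma map_ent (φ : R →+* R') (ζ : (a : ℕ) → Fin a → R) (y : Fin l → Fin r → R) (θ : Sb r → R)
    (a : Bk r) (c : Cl l r) :
    φ (ent ζ y θ a c) = ent (fun a m => φ (ζ a m)) (fun c j => φ (y c j)) (fun A => φ (θ A))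
      a c := by
  rcases c with c | p | A
  · rcases a with i | j
    · exact map_zero φ
    · rfl
  · show φ (-(ζ _ p.2 * eA p.1 (θ p.1) a)) = -(φ (ζ _ p.2) * eA p.1 (φ (θ p.1)) a)
    rw [map_neg, map_mul]
    congr 2
    rw [eA, eA]
    split_ifs
    · rfl
    · exact map_one φ
    · exact map_zero φ
  · show φ (eP R A a) = eP R' A a
    rw [eP, eP]
    split_ifs
    · exact map_one φ
    · exact map_zero φ

lemma map_pi_ent (φ : R →+* R') (ζ : (a : ℕ) → Fin a → R) (y : Fin l → Fin r → R)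
    (θ : Sb r → R) (s : Finset (Cl l r)) (A : Finset (Bk r)) :
    φ (pi (ent ζ y θ) s A) = pi (ent (fun a m => φ (ζ a m)) (fun c j => φ (y c j))
      (fun A => φ (θ A))) s A := by
  rw [map_pi]
  simp only [map_ent]

end mapent

section

variable {K : Type u} [Field K] {κ : Type} [Fintype κ] [DecidableEq κ] {r l : ℕ}

/-- the variables of the main columns -/
abbrev Yv (κ : Type) (l r : ℕ) : Type := (κ × Fin l) × Fin r

/-- the parameters -/
abbrev Pv (κ : Type) (r : ℕ) : Type := κ × Sb r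

lemma roots_choice [IsAlgClosed K] (hK : ∀ m ≤ 2 * r, (m.factorial : K) ≠ 0) :
    ∃ ζ : (a : ℕ) → Fin a → K, ∀ a : ℕ, 1 ≤ a → a ≤ 2 * r →
      ∀ (R : Type u) [CommRing R] [IsDomain R] [Algebra K R] (q : MvPolynomial (Bk r) R),
      ∏ m, (1 - C (algebraMap K R (ζ a m)) * q) = 1 - q ^ a := by
  have h1 : ∀ a : ℕ, ∃ ζ : Fin a → K, 1 ≤ a → a ≤ 2 * r →
      ∀ (R : Type u) [CommRing R] [IsDomain R] [Algebra K R] (x y : R),
      ∏ m, (x - algebraMap K R (ζ m) * y) = x ^ a - y ^ a := by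
    intro a
    by_cases ha : 1 ≤ a ∧ a ≤ 2 * r
    · have ha' : (a : K) ≠ 0 := by
        intro h
        apply hK a ha.2
        have h2 : a ∣ a.factorial := Nat.dvd_factorial ha.1 le_rfl
        obtain ⟨t, ht⟩ := h2
        rw [ht, Nat.cast_mul, h, zero_mul]
      obtain ⟨ζ, hζ⟩ := exists_roots K a ha'
      exact ⟨ζ, fun _ _ => hζ⟩
    · refine ⟨0, fun h2 h3 => ?_⟩
      exact absurd ⟨h2, h3⟩ ha
  choose ζ hζ using h1
  refine ⟨ζ, ?_⟩
  intro a ha1 ha2 R _ _ _ q
  have h2 := hζ a ha1 ha2 (MvPolynomial (Bk r) R) 1 q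
  rw [one_pow] at h2
  rw [← h2]
  rfl

/-- the entries of block `I`, in the ring of all variables -/
noncomputable def ent1 (ζ : (a : ℕ) → Fin a → K) (I : κ) :
    Bk r → Cl l r → MvPolynomial (Pv κ r ⊕ Yv κ l r) K :=
  ent (fun a m => C (ζ a m)) (fun c j => X (Sum.inr ((I, c), j))) (fun A => X (Sum.inl (I, A)))

/-- the entries of block `I`, over the ring of the main variables -/
noncomputable def ent2 (ζ : (a : ℕ) → Fin a → K) (I : κ)
    (f : Pv κ r → MvPolynomial (Pv κ r) (MvPolynomial (Yv κ l r) K)) :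
    Bk r → Cl l r → MvPolynomial (Pv κ r) (MvPolynomial (Yv κ l r) K) :=
  ent (fun a m => C (C (ζ a m))) (fun c j => C (X ((I, c), j))) (fun A => f (I, A))

/-- the entries of block `I` after substitution of the parameters -/
noncomputable def ent3 (ζ : (a : ℕ) → Fin a → K) (I : κ)
    (s : Pv κ r → MvPolynomial (Yv κ l r) K) :
    Bk r → Cl l r → MvPolynomial (Yv κ l r) K :=
  ent (fun a m => C (ζ a m)) (fun c j => X ((I, c), j)) (fun A => s (I, A))

lemma ent1_degree (ζ : (a : ℕ) → Fin a → K) (I : κ) (a : Bk r) (c : Cl l r) :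
    (ent1 ζ I a c).totalDegree ≤ 1 := by
  rcases c with c | p | A
  · rcases a with i | j
    · show (0 : MvPolynomial _ K).totalDegree ≤ 1
      rw [totalDegree_zero]
      exact Nat.zero_le _
    · show (X (Sum.inr ((I, c), j)) : MvPolynomial (Pv κ r ⊕ Yv κ l r) K).totalDegree ≤ 1
      rw [totalDegree_X]
  · show (-(C (ζ _ p.2) * eA p.1 (X (Sum.inl (I, p.1)) :
      MvPolynomial (Pv κ r ⊕ Yv κ l r) K) a)).totalDegree ≤ 1
    rw [totalDegree_neg]
    refine (totalDegree_mul _ _).trans ?_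
    rw [totalDegree_C, zero_add, eA]
    split_ifs
    · rw [totalDegree_X]
    · rw [totalDegree_one]
      exact Nat.zero_le _
    · rw [totalDegree_zero]
      exact Nat.zero_le _
  · show (eP (MvPolynomial (Pv κ r ⊕ Yv κ l r) K) A a).totalDegree ≤ 1
    rw [eP]
    split_ifs
    · rw [totalDegree_one]
      exact Nat.zero_le _
    · rw [totalDegree_zero]
      exact Nat.zero_le _

/-- the equations -/
noncomputable def P2 (ζ : (a : ℕ) → Fin a → K) (l : ℕ) (q : Pv κ r) :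
    MvPolynomial (Pv κ r) (MvPolynomial (Yv κ l r) K) :=
  pi (ent2 ζ q.1 X) (Finset.univ : Finset (Cl l r)) q.2.1 - C (C (star K q.2.1))

/-- the outputs -/
noncomputable def O2 (ζ : (a : ℕ) → Fin a → K) (q : Yv κ l r) :
    MvPolynomial (Pv κ r) (MvPolynomial (Yv κ l r) K) :=
  pi (ent2 ζ q.1.1 X) ((Finset.univ : Finset (Cl l r)).erase (Sum.inl q.1.2))
    (Finset.univ.erase (Sum.inl q.2))

lemma aeval_ent2 (ζ : (a : ℕ) → Fin a → K) (I : κ)
    (f : Pv κ r → MvPolynomial (Pv κ r) (MvPolynomial (Yv κ l r) K))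
    (s : Finset (Cl l r)) (A : Finset (Bk r)) :
    aeval f (pi (ent2 ζ I X) s A) = pi (ent2 ζ I f) s A := by
  have h1 := map_pi_ent (aeval f : MvPolynomial (Pv κ r) (MvPolynomial (Yv κ l r) K)
    →ₐ[MvPolynomial (Yv κ l r) K] _).toRingHom (fun a m => C (C (ζ a m)))
    (fun c j => C (X ((I, c), j))) (fun A => X (I, A)) s A
  refine h1.trans ?_
  rw [ent2]
  congr 2
  · funext a m
    exact (aeval_C _ _).trans rfl
  · funext c j
    exact (aeval_C _ _).trans rfl
  · funext A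
    exact aeval_X _ _

lemma aeval_ent3 (ζ : (a : ℕ) → Fin a → K) (I : κ)
    (f : Pv κ r → MvPolynomial (Yv κ l r) K)
    (s : Finset (Cl l r)) (A : Finset (Bk r)) :
    aeval f (pi (ent2 ζ I X) s A) = pi (ent3 ζ I f) s A := by
  have h1 := map_pi_ent (aeval f : MvPolynomial (Pv κ r) (MvPolynomial (Yv κ l r) K)
    →ₐ[MvPolynomial (Yv κ l r) K] _).toRingHom (fun a m => C (C (ζ a m)))
    (fun c j => C (X ((I, c), j))) (fun A => X (I, A)) s A
  refine h1.trans ?_
  rw [ent3]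
  congr 2
  · funext a m
    exact (aeval_C _ _).trans rfl
  · funext c j
    exact (aeval_C _ _).trans rfl
  · funext A
    exact aeval_X _ _

lemma tri_P2 [IsAlgClosed K] (ζ : (a : ℕ) → Fin a → K)
    (hζ : ∀ a : ℕ, 1 ≤ a → a ≤ 2 * r →
      ∀ (R : Type u) [CommRing R] [IsDomain R] [Algebra K R] (q : MvPolynomial (Bk r) R),
      ∏ m, (1 - C (algebraMap K R (ζ a m)) * q) = 1 - q ^ a) :
    Tri (P2 (κ := κ) ζ l) (fun q => q.2.1.card)
      (fun q => -(q.2.1.card.factorial : MvPolynomial (Yv κ l r) K)) := by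
  intro q f g h
  rw [P2, map_sub, map_sub, aeval_ent2, aeval_ent2]
  have h1 := pi_tri (l := l) (fun a m => C (C (ζ a m)))
    (fun c j => (C (X ((q.1, c), j)) : MvPolynomial (Pv κ r) (MvPolynomial (Yv κ l r) K)))
    (fun A => f (q.1, A)) (fun A => g (q.1, A))
    (fun a ha1 ha2 p => hζ a ha1 ha2 (MvPolynomial (Pv κ r) (MvPolynomial (Yv κ l r) K)) p)
    q.2 (fun A' hA' => h (q.1, A') hA')
  have h2 : pi (ent2 ζ q.1 f) Finset.univ q.2.1 + q.2.1.card.factorial * f q =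
      pi (ent2 ζ q.1 g) Finset.univ q.2.1 + q.2.1.card.factorial * g q := h1
  have h3 : ∀ f : Pv κ r → MvPolynomial (Pv κ r) (MvPolynomial (Yv κ l r) K),
      aeval f (C (C (star K q.2.1)) : MvPolynomial (Pv κ r) (MvPolynomial (Yv κ l r) K)) =
      C (C (star K q.2.1)) := fun f => (aeval_C _ _).trans rfl
  rw [h3, h3, map_neg, map_natCast]
  linear_combination h2

/-- the affine substitution -/
noncomputable def xs (ζ : (a : ℕ) → Fin a → K) (v : κ × Bk r × Cl l r) :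
    MvPolynomial (Pv κ r ⊕ Yv κ l r) K := ent1 ζ v.1 v.2.1 v.2.2

lemma aeval_xs (ζ : (a : ℕ) → Fin a → K) (I : κ) (s : Finset (Cl l r)) (A : Finset (Bk r)) :
    aeval (xs ζ) (pi (gx K I) s A) = pi (ent1 ζ I) s A := by
  have h1 := map_pi (aeval (xs ζ) : MvPolynomial (κ × Bk r × Cl l r) K →ₐ[K]
    MvPolynomial (Pv κ r ⊕ Yv κ l r) K).toRingHom (gx K I) s A
  refine h1.trans ?_
  congr 1
  funext a c
  exact aeval_X _ _

/-- the functions -/
noncomputable def F1 (ζ : (a : ℕ) → Fin a → K) :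
    Yv κ l r ⊕ Pv κ r → MvPolynomial (Pv κ r ⊕ Yv κ l r) K :=
  Sum.elim (fun q => pi (ent1 ζ q.1.1) ((Finset.univ : Finset (Cl l r)).erase (Sum.inl q.1.2))
      (Finset.univ.erase (Sum.inl q.2)))
    (fun q => pi (ent1 ζ q.1) (Finset.univ : Finset (Cl l r)) q.2.1 - C (star K q.2.1))

lemma sumAlg_ent1 (ζ : (a : ℕ) → Fin a → K) (I : κ) (s : Finset (Cl l r))
    (A : Finset (Bk r)) :
    sumAlgEquiv K (Pv κ r) (Yv κ l r) (pi (ent1 ζ I) s A) = pi (ent2 ζ I X) s A := by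
  have h1 := map_pi_ent (sumAlgEquiv K (Pv κ r) (Yv κ l r)).toAlgHom.toRingHom
    (fun a m => C (ζ a m))
    (fun c j => X (Sum.inr ((I, c), j))) (fun A => X (Sum.inl (I, A))) s A
  refine h1.trans ?_
  rw [ent2]
  congr 2
  · funext a m
    exact sumAlgEquiv_C_inl _ _ _ _
  · funext c j
    exact sumAlgEquiv_X_inr _ _ _ _
  · funext A
    exact sumAlgEquiv_X_inl _ _ _ _

lemma F1_mem (hK : ∀ m ≤ 2 * r, (m.factorial : K) ≠ 0) (ζ : (a : ℕ) → Fin a → K)
    (m : Yv κ l r ⊕ Pv κ r) :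
    F1 ζ m ∈ Submodule.span K ({1} ∪ Set.range fun v => aeval (xs ζ)
      (pderiv v (∑ I : κ, pi (gx K I) (Finset.univ : Finset (Cl l r))
        (Finset.univ : Finset (Bk r))))) := by
  have h1 : ∀ (I : κ) (c : Cl l r) (a : Bk r),
      pi (ent1 ζ I) (Finset.univ.erase c) (Finset.univ.erase a) ∈
        Submodule.span K ({1} ∪ Set.range fun v => aeval (xs ζ)
      (pderiv v (∑ I : κ, pi (gx K I) (Finset.univ : Finset (Cl l r))
        (Finset.univ : Finset (Bk r))))) := by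
    intro I c a
    apply Submodule.subset_span
    right
    refine ⟨(I, a, c), ?_⟩
    show aeval (xs ζ) (pderiv (I, a, c) (∑ I : κ, pi (gx K I) (Finset.univ : Finset (Cl l r))
        (Finset.univ : Finset (Bk r)))) = _
    rw [pderiv_sum_pi I a c _ _ (Finset.mem_univ _) (Finset.mem_univ _), aeval_xs]
  rcases m with q | q
  · exact h1 _ _ _
  · apply Submodule.sub_mem
    · exact pi_mem_span hK _ _ _ _ (h1 q.1) q.2
    · have h2 : (C (star K q.2.1) : MvPolynomial (Pv κ r ⊕ Yv κ l r) K) =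
        star K q.2.1 • 1 := by
        rw [smul_eq_C_mul, mul_one]
      rw [h2]
      exact Submodule.smul_mem _ _ (Submodule.subset_span (Or.inl rfl))

lemma F1_indep [IsAlgClosed K] (hr : 2 ≤ r) (hK : ∀ m ≤ 2 * r, (m.factorial : K) ≠ 0)
    (ζ : (a : ℕ) → Fin a → K)
    (hζ : ∀ a : ℕ, 1 ≤ a → a ≤ 2 * r →
      ∀ (R : Type u) [CommRing R] [IsDomain R] [Algebra K R] (q : MvPolynomial (Bk r) R),
      ∏ m, (1 - C (algebraMap K R (ζ a m)) * q) = 1 - q ^ a)
    (M : ℕ) (h0 : Fin M → MvPolynomial (Yv κ l r) K)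
    (hli : LinearIndependent K (fun p : Fin M × (Yv κ l r → ℕ) =>
      h0 p.1 * mon (E K r (κ × Fin l)) p.2)) :
    LinearIndependent K (fun p : Fin M × (Yv κ l r ⊕ Pv κ r → ℕ) =>
      (rename Sum.inr (h0 p.1) : MvPolynomial (Pv κ r ⊕ Yv κ l r) K) * mon (F1 ζ) p.2) := by
  classical
  have hTri := tri_P2 (κ := κ) (r := r) (l := l) ζ hζ
  have hcd : ∀ q : Pv κ r, -(q.2.1.card.factorial : MvPolynomial (Yv κ l r) K) *
      C (-((q.2.1.card.factorial : K)⁻¹)) = 1 := by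
    intro q
    have hle : q.2.1.card ≤ 2 * r := by
      have h2 := Finset.card_le_univ q.2.1
      rw [Fintype.card_sum, Fintype.card_fin] at h2
      omega
    rw [← map_natCast (C : K →+* MvPolynomial (Yv κ l r) K), ← map_neg, ← map_mul,
      neg_mul_neg, mul_inv_cancel₀ (hK _ hle), map_one]
  obtain ⟨s, hs⟩ := exists_sol (P2 (κ := κ) ζ l) _ _ _ hTri hcd
  have hs' : ∀ (I : κ) (A : Sb r), pi (ent3 (l := l) ζ I s) Finset.univ A.1 =
      algebraMap K (MvPolynomial (Yv κ l r) K) (star K A.1) := by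
    intro I A
    have h1 := hs (I, A)
    rw [P2, map_sub, aeval_ent3, sub_eq_zero] at h1
    rw [h1]
    exact (aeval_C _ _).trans rfl
  have hout : ∀ q : Yv κ l r, aeval s (O2 ζ q) = E K r (κ × Fin l) q := by
    rintro ⟨⟨I, c⟩, i⟩
    rw [O2, aeval_ent3]
    have h1 := pi_output (K := K) (l := l) hr hK
      (fun a m => (C (ζ a m) : MvPolynomial (Yv κ l r) K))
      (fun c j => X ((I, c), j)) (fun A => s (I, A)) (hs' I) c i
    refine h1.trans ?_
    rw [E, esymm, map_sum]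
    simp only [map_prod, rename_X]
  have hel := elim_tri (K := K) h0 (O2 (κ := κ) (l := l) ζ) (P2 (κ := κ) ζ l) _ _ _ hTri hcd s hs
    (by
      simp only [hout]
      exact hli)
  let idx : Fin M × (Yv κ l r ⊕ Pv κ r → ℕ) → Fin M × (Yv κ l r → ℕ) × (Pv κ r → ℕ) :=
    fun p => (p.1, fun m => p.2 (Sum.inl m), fun r => p.2 (Sum.inr r))
  have hidx : Function.Injective idx := by
    rintro ⟨j, α⟩ ⟨j', α'⟩ hjj
    simp only [idx, Prod.mk.injEq] at hjj
    ext1
    · exact hjj.1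
    · funext i
      rcases i with i | i
      · exact congrFun hjj.2.1 i
      · exact congrFun hjj.2.2 i
  have h3 := hel.comp idx hidx
  apply LinearIndependent.of_comp (sumAlgEquiv K (Pv κ r) (Yv κ l r)).toLinearMap
  have h5 : ((sumAlgEquiv K (Pv κ r) (Yv κ l r)).toLinearMap ∘
      fun p : Fin M × (Yv κ l r ⊕ Pv κ r → ℕ) =>
      (rename Sum.inr (h0 p.1) : MvPolynomial (Pv κ r ⊕ Yv κ l r) K) * mon (F1 ζ) p.2) =
      ((fun p : Fin M × (Yv κ l r → ℕ) × (Pv κ r → ℕ) =>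
        (C (h0 p.1) * mon (O2 (κ := κ) (l := l) ζ) p.2.1 * mon (P2 (κ := κ) ζ l) p.2.2 :
          MvPolynomial (Pv κ r) (MvPolynomial (Yv κ l r) K))) ∘ idx) := by
    funext p
    simp only [Function.comp_apply, AlgEquiv.toLinearMap_apply, idx]
    rw [map_mul, mul_assoc]
    have h6 : mon (F1 ζ) p.2 = (∏ q : Yv κ l r, F1 ζ (Sum.inl q) ^ p.2 (Sum.inl q)) *
        ∏ q : Pv κ r, F1 ζ (Sum.inr q) ^ p.2 (Sum.inr q) := Fintype.prod_sum_type _
    have h7 : sumAlgEquiv K (Pv κ r) (Yv κ l r) (rename Sum.inr (h0 p.1)) = C (h0 p.1) := by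
      rw [← symm_C, AlgEquiv.apply_symm_apply]
    have h8 : ∀ q : Yv κ l r, sumAlgEquiv K (Pv κ r) (Yv κ l r) (F1 ζ (Sum.inl q)) = O2 ζ q :=
      fun q => sumAlg_ent1 ζ _ _ _
    have h9 : ∀ q : Pv κ r, sumAlgEquiv K (Pv κ r) (Yv κ l r) (F1 ζ (Sum.inr q)) =
        P2 ζ l q := by
      intro q
      rw [F1, Sum.elim_inr, map_sub, sumAlg_ent1, P2, sumAlgEquiv_C_inl]
    rw [h6, h7, map_mul, map_prod, map_prod]
    simp only [map_pow, h8, h9]
    rfl
  rw [h5]
  exact h3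

/-- **The bound for direct sums.** -/
theorem system_bound [IsAlgClosed K] {L : ℕ} (hr : 2 ≤ r)
    (hK : ∀ m ≤ 2 * r, (m.factorial : K) ≠ 0)
    (a b : Fin L → MvPolynomial (κ × Bk r × Cl l r) K) (hP : Prog a b)
    (hout : (∑ I : κ, pi (gx K I) (Finset.univ : Finset (Cl l r))
        (Finset.univ : Finset (Bk r))) ∈
      Submodule.span K ({1} ∪ Set.range X ∪ {h | ∃ i, h = a i * b i})) :
    r.factorial ^ (Fintype.card κ * l) ≤
      2 ^ (Fintype.card κ * (l * r + Fintype.card (Sb r)) + 2 * L) := by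
  classical
  obtain ⟨ζ, hζ⟩ := roots_choice (K := K) (r := r) hK
  obtain ⟨h0, hh0⟩ := orbit_indep K r (J := κ × Fin l)
  have h1 := adjoint_bound a b hP _ hout (xs ζ) (fun v => ent1_degree ζ _ _ _)
    (μ := Yv κ l r ⊕ Pv κ r) (by
      rw [Fintype.card_sum, Fintype.card_sum (α := Pv κ r), add_comm]) _
      (fun j => rename Sum.inr (h0 j)) (F1 ζ) (F1_mem hK ζ)
      (F1_indep hr hK ζ hζ _ h0 hh0)
  rw [Fintype.card_prod, Fintype.card_fin, Fintype.card_sum, Fintype.card_prod,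
    Fintype.card_prod, Fintype.card_prod, Fintype.card_fin, Fintype.card_fin] at h1
  refine h1.trans (le_of_eq ?_)
  congr 1
  ring

end

end Pool.Agent.V7H63.Deg
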