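import Mathlib

/-!
# Counting monomials: a bound of Bezout type for linearly independent products
-/

set_option autoImplicit false

open MvPolynomial Finset

namespace Pool.Agent.V7H63.Deg

universe u v w

section count

variable (ν : Type) [Fintype ν] [DecidableEq ν]

/-- the vectors with sum at most `T` -/
def box (T : ℕ) : Finset (ν → ℕ) :=
  (Fintype.piFinset fun _ : ν => Finset.range (T + 1)).filter fun f => ∑ i, f i ≤ T

lemma mem_box (T : ℕ) (f : ν → ℕ) : f ∈ box ν T ↔ ∑ i, f i ≤ T := by
  rw [box, Finset.mem_filter, Fintype.mem_piFinset]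
  constructor
  · exact fun h => h.2
  · intro h
    refine ⟨fun i => ?_, h⟩
    rw [Finset.mem_range]
    have h1 := Finset.single_le_sum (f := f) (fun j _ => Nat.zero_le _) (Finset.mem_univ i)
    omega

lemma card_box_le (T : ℕ) : (box ν T).card ≤ (T + 1) ^ Fintype.card ν := by
  refine (Finset.card_filter_le _ _).trans ?_
  rw [Fintype.card_piFinset]
  simp

lemma card_box_pos (T : ℕ) : 1 ≤ (box ν T).card := by
  apply Finset.card_pos.2
  exact ⟨0, by rw [mem_box]; simp⟩

/-- halving -/
lemma card_box_two (T c : ℕ) :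
    (box ν (c + 2 * T)).card ≤ 2 ^ Fintype.card ν * (box ν (T + c)).card := by
  have h : (box ν (c + 2 * T)).card ≤
      ((Finset.univ : Finset (ν → Fin 2)) ×ˢ box ν (T + c)).card := by
    apply Finset.card_le_card_of_injOn
      (fun f => (fun i => (⟨f i % 2, Nat.mod_lt _ (by norm_num)⟩ : Fin 2), fun i => f i / 2))
    · intro f hf
      rw [Finset.mem_coe, mem_box] at hf
      rw [Finset.mem_coe, Finset.mem_product]
      refine ⟨Finset.mem_univ _, ?_⟩
      rw [mem_box]
      have h1 : 2 * ∑ i, f i / 2 ≤ ∑ i, f i := by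
        rw [Finset.mul_sum]
        apply Finset.sum_le_sum
        intro i _
        omega
      show ∑ i, f i / 2 ≤ T + c
      omega
    · intro f _ g _ h
      simp only [Prod.mk.injEq] at h
      funext i
      have h1 := congrFun h.1 i
      have h2 := congrFun h.2 i
      simp only [Fin.mk.injEq] at h1 h2
      omega
  refine h.trans ?_
  rw [Finset.card_product]
  simp

lemma card_box_equiv {ν' : Type} [Fintype ν'] [DecidableEq ν'] (e : ν ≃ ν') (T : ℕ) :
    (box ν T).card = (box ν' T).card := by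
  apply Finset.card_bij' (fun f _ => f ∘ e.symm) (fun f _ => f ∘ e)
  · intro f hf
    rw [mem_box] at hf ⊢
    rw [← Equiv.sum_comp e]
    simpa using hf
  · intro f hf
    rw [mem_box] at hf ⊢
    rw [← Equiv.sum_comp e.symm]
    simpa using hf
  · intro f _
    funext i
    simp
  · intro f _
    funext i
    simp

end count

/-- growth -/
lemma le_of_growth (a : ℕ → ℕ) (N M D c : ℕ) (h0 : 1 ≤ a 0) (ha : ∀ T, a T ≤ (T + 1) ^ N)
    (hD : 1 ≤ D) (h : ∀ T, M * a T ≤ D * a (T + c)) : M ≤ D := by
  by_contra hcon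
  push Not at hcon
  have h1 : ∀ T, ((1 : ℝ) + 1 / D) * a T ≤ a (T + c) := by
    intro T
    have h2 : ((D : ℝ) + 1) * a T ≤ D * a (T + c) := by
      have h3 : (D + 1) * a T ≤ D * a (T + c) :=
        (Nat.mul_le_mul_right _ hcon).trans (h T)
      exact_mod_cast h3
    have hD' : (0 : ℝ) < D := by exact_mod_cast hD
    have h4 : ((1 : ℝ) + 1 / D) * a T = ((D : ℝ) + 1) * a T / D := by
      field_simp
    rw [h4, div_le_iff₀ hD']
    linarith
  have h2 : ∀ j : ℕ, ((1 : ℝ) + 1 / D) ^ j ≤ a (j * c) := by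
    intro j
    induction j with
    | zero =>
      rw [pow_zero, zero_mul]
      exact_mod_cast h0
    | succ j ih =>
      have h3 := h1 (j * c)
      rw [pow_succ, Nat.succ_mul]
      have h4 : (0 : ℝ) ≤ 1 + 1 / D := by positivity
      calc (1 + 1 / (D : ℝ)) ^ j * (1 + 1 / D) ≤ a (j * c) * (1 + 1 / D) :=
            mul_le_mul_of_nonneg_right ih h4
        _ ≤ a (j * c + c) := by linarith
  have h3 : ∀ j : ℕ, ((1 : ℝ) + 1 / D) ^ j ≤ ((c : ℝ) + 1) ^ N * ((j : ℝ) + 1) ^ N := by
    intro j
    refine (h2 j).trans ?_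
    have h4 : (a (j * c) : ℝ) ≤ ((j * c + 1 : ℕ) : ℝ) ^ N := by exact_mod_cast ha (j * c)
    refine h4.trans ?_
    rw [← mul_pow]
    apply pow_le_pow_left₀ (by positivity)
    push_cast
    nlinarith [Nat.cast_nonneg (α := ℝ) c, Nat.cast_nonneg (α := ℝ) j]
  have hr : (1 : ℝ) < 1 + 1 / D := by
    have hD' : (0 : ℝ) < D := by exact_mod_cast hD
    have : (0 : ℝ) < 1 / D := by positivity
    linarith
  have h4 := tendsto_pow_const_div_const_pow_of_one_lt N hr
  have h5 := (h4.comp (Filter.tendsto_add_atTop_nat 1)).const_mul (((c : ℝ) + 1) ^ N *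
    (1 + 1 / D))
  rw [mul_zero] at h5
  have h6 := (h5.eventually (gt_mem_nhds (show (0 : ℝ) < 1 by norm_num))).exists
  obtain ⟨j, hj⟩ := h6
  have h7 := h3 j
  have h8 : (0 : ℝ) < (1 + 1 / D) ^ (j + 1) := by positivity
  simp only [Function.comp_apply] at hj
  rw [← mul_div_assoc, div_lt_one h8, pow_succ (1 + 1 / (D : ℝ)) j] at hj
  have h9 : (0 : ℝ) < 1 + 1 / D := by linarith
  push_cast at hj
  have h10 : ((c : ℝ) + 1) ^ N * ((j : ℝ) + 1) ^ N * (1 + 1 / D) <
      (1 + 1 / (D : ℝ)) ^ j * (1 + 1 / D) := by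
    calc _ = ((c : ℝ) + 1) ^ N * (1 + 1 / D) * ((j : ℝ) + 1) ^ N := by ring
      _ < _ := hj
  have h11 := lt_of_mul_lt_mul_right h10 h9.le
  linarith

/-- the product of powers of a family -/
noncomputable def mon {ν : Type} [Fintype ν] {R : Type u} [CommSemiring R] (f : ν → R)
    (α : ν → ℕ) : R := ∏ m, f m ^ α m

/-- **The bound.** -/
theorem count_bound {K : Type u} [Field K] {V ν : Type} [Fintype V] [Fintype ν]
    (hc : Fintype.card ν = Fintype.card V) (M : ℕ) (h : Fin M → MvPolynomial V K)
    (Ψ : ν → MvPolynomial V K) (hd : ∀ m, (Ψ m).totalDegree ≤ 2)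
    (hli : LinearIndependent K (fun p : Fin M × (ν → ℕ) => h p.1 * mon Ψ p.2)) :
    M ≤ 2 ^ Fintype.card V := by
  classical
  let c : ℕ := ∑ s, (h s).totalDegree
  have hdeg : ∀ (s : Fin M) (T : ℕ) (α : ν → ℕ), ∑ m, α m ≤ T →
      (h s * mon Ψ α).totalDegree ≤ c + 2 * T := by
    intro s T α hα
    refine (totalDegree_mul _ _).trans (add_le_add ?_ ?_)
    · exact Finset.single_le_sum (f := fun s => (h s).totalDegree) (fun j _ => Nat.zero_le _)
        (Finset.mem_univ s)
    · refine (totalDegree_finsetProd _ _).trans ?_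
      calc ∑ m, (Ψ m ^ α m).totalDegree ≤ ∑ m, 2 * α m := by
            apply Finset.sum_le_sum
            intro m _
            refine (totalDegree_pow _ _).trans ?_
            rw [mul_comm]
            exact Nat.mul_le_mul_right _ (hd m)
        _ = 2 * ∑ m, α m := by rw [Finset.mul_sum]
        _ ≤ 2 * T := Nat.mul_le_mul_left _ hα
  have hmain : ∀ T : ℕ, M * (box ν T).card ≤ (box V (c + 2 * T)).card := by
    intro T
    let W : Submodule K (MvPolynomial V K) := restrictTotalDegree V K (c + 2 * T)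
    have h1 : Module.finrank K W = (box V (c + 2 * T)).card := by
      have h2 := Module.finrank_eq_nat_card_basis
        (basisRestrictSupport K {n : V →₀ ℕ | (n.sum fun _ e => e) ≤ c + 2 * T})
      refine Eq.trans h2 ?_
      have h3 : (box V (c + 2 * T)).card = Nat.card (box V (c + 2 * T)) := by simp
      rw [h3]
      apply Nat.card_congr
      refine ⟨fun n => ⟨n.1, ?_⟩, fun f => ⟨Finsupp.equivFunOnFinite.symm f.1, ?_⟩, ?_, ?_⟩
      · rw [mem_box]
        have h4 := n.2
        rw [Set.mem_setOf_eq, Finsupp.sum_fintype _ _ (fun _ => rfl)] at h4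
        exact h4
      · have h4 := f.2
        rw [mem_box] at h4
        rw [Set.mem_setOf_eq, Finsupp.sum_fintype _ _ (fun _ => rfl)]
        exact h4
      · intro n
        ext
        simp
      · intro f
        ext
        simp
    let e : (Fin M × box ν T) → Fin M × (ν → ℕ) := fun p => (p.1, p.2.1)
    have he : Function.Injective e := by
      rintro ⟨a, b⟩ ⟨a', b'⟩ hab
      simp only [e, Prod.mk.injEq] at hab
      ext1
      · exact hab.1
      · exact Subtype.ext hab.2
    have h2 := hli.comp e he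
    let w : (Fin M × box ν T) → W := fun p => ⟨h p.1 * mon Ψ p.2.1, by
      rw [mem_restrictTotalDegree]
      exact hdeg _ _ _ ((mem_box _ _ _).1 p.2.2)⟩
    have h3 : LinearIndependent K w := by
      apply LinearIndependent.of_comp W.subtype
      exact h2
    have h4 := h3.fintype_card_le_finrank
    rw [h1, Fintype.card_prod, Fintype.card_fin] at h4
    simpa using h4
  obtain ⟨e⟩ : Nonempty (V ≃ ν) := Fintype.card_eq.1 hc.symm
  apply le_of_growth (fun T => (box ν T).card) (Fintype.card ν) M _ c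
    (card_box_pos ν 0) (card_box_le ν) Nat.one_le_two_pow
  intro T
  have h5 := hmain T
  rw [card_box_equiv V e] at h5
  have h6 := card_box_two ν T c
  rw [hc] at h6
  exact h5.trans h6

end Pool.Agent.V7H63.Deg
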