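import Pool.Agent.V7H63.Deg.Sqf
import Pool.Agent.V7H63.Perm.PermIndep

/-!
# Direct sums of permanental polynomials as projections of the permanent
-/

set_option autoImplicit false

open MvPolynomial Finset

namespace Pool.Agent.V7H63.Deg

universe u

/-- factorisation of a difference of powers -/
lemma exists_roots (K : Type u) [Field K] [IsAlgClosed K] (a : ℕ) (ha : (a : K) ≠ 0) :
    ∃ ζ : Fin a → K, ∀ (R : Type u) [CommRing R] [IsDomain R] [Algebra K R] (x y : R),
      ∏ m, (x - algebraMap K R (ζ m) * y) = x ^ a - y ^ a := by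
  classical
  have : NeZero (a : K) := ⟨ha⟩
  have ha0 : 0 < a := by
    rcases Nat.eq_zero_or_pos a with h | h
    · subst h
      simp at ha
    · exact h
  obtain ⟨z, hz⟩ := HasEnoughRootsOfUnity.exists_primitiveRoot K a
  have hcard : (Polynomial.nthRootsFinset a (1 : K)).card = a := hz.card_nthRootsFinset
  let e := (Finset.equivFinOfCardEq hcard).symm
  refine ⟨fun m => (e m).1, ?_⟩
  intro R _ _ _ x y
  have hinj : Function.Injective (algebraMap K R) := (algebraMap K R).injective
  have hz' : IsPrimitiveRoot (algebraMap K R z) a := hz.map_of_injective hinj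
  rw [hz'.pow_sub_pow_eq_prod_sub_mul x y ha0]
  have h1 : Polynomial.nthRootsFinset a (1 : R) =
      (Polynomial.nthRootsFinset a (1 : K)).image (algebraMap K R) := by
    symm
    apply Finset.eq_of_subset_of_card_le
    · intro r hr
      rw [Finset.mem_image] at hr
      obtain ⟨z', hz', rfl⟩ := hr
      exact Polynomial.map_mem_nthRootsFinset_one hz' _
    · rw [Finset.card_image_of_injective _ hinj, hcard, hz'.card_nthRootsFinset]
  rw [h1, Finset.prod_image (fun _ _ _ _ h => hinj h)]
  have h2 := Equiv.prod_comp e (fun z => x - algebraMap K R z.1 * y)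
  rw [h2]
  exact Finset.prod_coe_sort _ (fun z => x - algebraMap K R z * y)

section novar

variable {J : Type} [Fintype J] [DecidableEq J] {S : Type u} [CommRing S]

/-- no squarefree monomial of `q` contains the variable `y` -/
def NoVar (y : J) (q : MvPolynomial J S) : Prop := ∀ Y : Finset J, y ∈ Y → cf Y q = 0

lemma noVar_one (y : J) : NoVar y (1 : MvPolynomial J S) := by
  intro Y hY
  rw [cf_one, if_neg]
  rintro rfl
  simp at hY

lemma noVar_lin_mul (y : J) (e : J → S) (he : e y = 0) (q : MvPolynomial J S)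
    (hq : NoVar y q) : NoVar y (lin e * q) := by
  intro Y hY
  rw [cf_lin_mul]
  apply Finset.sum_eq_zero
  intro j _
  by_cases hj : j = y
  · rw [hj, he, zero_mul]
  · rw [hq _ (Finset.mem_erase.2 ⟨Ne.symm hj, hY⟩), mul_zero]

lemma noVar_pow_mul (y : J) (e : J → S) (he : e y = 0) (m : ℕ) (q : MvPolynomial J S)
    (hq : NoVar y q) : NoVar y (lin e ^ m * q) := by
  induction m with
  | zero => rwa [pow_zero, one_mul]
  | succ m ih =>
    rw [pow_succ', mul_assoc]
    exact noVar_lin_mul y e he _ ih

lemma noVar_prod_mul {ι : Type} (y : J) (s : Finset ι) (e : ι → J → S) (he : ∀ i, e i y = 0)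
    (m : ℕ) (q : MvPolynomial J S) (hq : NoVar y q) :
    NoVar y ((∏ i ∈ s, lin (e i) ^ m) * q) := by
  classical
  induction s using Finset.induction_on with
  | empty => rwa [Finset.prod_empty, one_mul]
  | insert i s hi ih =>
    rw [Finset.prod_insert hi, mul_assoc]
    exact noVar_pow_mul y _ (he i) m _ ih

end novar

section direct

variable {κ B D Fl : Type} [Fintype κ] [DecidableEq κ] [Fintype B] [DecidableEq B] [Fintype D]
  [DecidableEq D] [Fintype Fl] [DecidableEq Fl] {S : Type u} [CommRing S]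

/-- the matrix of a direct sum -/
def dm {b : ℕ} (ζ : Fin b → S) (x : κ → B → D → S) :
    (κ × B) ⊕ (B ⊕ Fl) → (κ × Fin b) ⊕ D → S
  | Sum.inl p, Sum.inl q => if p.1 = q.1 then 1 else 0
  | Sum.inl p, Sum.inr c => x p.1 p.2 c
  | Sum.inr (Sum.inl _), Sum.inl q => - ζ q.2
  | Sum.inr (Sum.inl _), Sum.inr _ => 0
  | Sum.inr (Sum.inr _), Sum.inl _ => 0
  | Sum.inr (Sum.inr _), Sum.inr _ => 1

/-- the form of a block -/
def bf (B Fl : Type) (S : Type u) [CommRing S] (I : κ) : (κ × B) ⊕ (B ⊕ Fl) → S
  | Sum.inl p => if p.1 = I then 1 else 0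
  | Sum.inr _ => 0

/-- the form of the global rows -/
def gf (κ B Fl : Type) (S : Type u) [CommRing S] : (κ × B) ⊕ (B ⊕ Fl) → S
  | Sum.inl _ => 0
  | Sum.inr (Sum.inl _) => 1
  | Sum.inr (Sum.inr _) => 0

/-- the form of a main column -/
def mf (Fl : Type) (x : κ → B → D → S) (c : D) : (κ × B) ⊕ (B ⊕ Fl) → S
  | Sum.inl p => x p.1 p.2 c
  | Sum.inr (Sum.inl _) => 0
  | Sum.inr (Sum.inr _) => 1

/-- the rows of some blocks -/
def Jb (B Fl : Type) [Fintype B] (s : Finset κ) : Finset ((κ × B) ⊕ (B ⊕ Fl)) :=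
  (s ×ˢ (Finset.univ : Finset B)).disjSum ∅

/-- the global rows -/
def Gs (κ B Fl : Type) [Fintype B] : Finset ((κ × B) ⊕ (B ⊕ Fl)) :=
  (∅ : Finset (κ × B)).disjSum ((Finset.univ : Finset B).disjSum ∅)

/-- rows of a block and filler rows -/
def Ys (I : κ) (A : Finset B) (F' : Finset Fl) : Finset ((κ × B) ⊕ (B ⊕ Fl)) :=
  (({I} : Finset κ) ×ˢ A).disjSum ((∅ : Finset B).disjSum F')

lemma cf_block (I : κ) (q : MvPolynomial ((κ × B) ⊕ (B ⊕ Fl)) S)
    (Y : Finset ((κ × B) ⊕ (B ⊕ Fl))) (h : Jb B Fl {I} ⊆ Y) :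
    cf Y (lin (bf B Fl S I) ^ Fintype.card B * q) =
      (Fintype.card B).factorial * cf (Y \ Jb B Fl {I}) q := by
  have hc : (Jb B Fl {I}).card = Fintype.card B := by
    rw [Jb, Finset.card_disjSum, Finset.card_product, Finset.card_singleton, Finset.card_univ,
      Finset.card_empty]
    ring
  have h1 := cf_pow_card_mul (Jb B Fl {I}) (bf B Fl S I) (by
    rintro (p | p) hp
    · simp only [Jb, Finset.inl_mem_disjSum, Finset.mem_product, Finset.mem_singleton,
        Finset.mem_univ, and_true] at hp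
      simp [bf, hp]
    · rfl) q Y
  rw [hc, if_pos h] at h1
  rw [h1, Finset.prod_eq_one, one_mul]
  rintro (p | p) hp
  · simp only [Jb, Finset.inl_mem_disjSum, Finset.mem_product, Finset.mem_singleton,
      Finset.mem_univ, and_true] at hp
    simp [bf, hp]
  · simp [Jb] at hp

lemma cf_glob (q : MvPolynomial ((κ × B) ⊕ (B ⊕ Fl)) S)
    (Y : Finset ((κ × B) ⊕ (B ⊕ Fl))) (h : Gs κ B Fl ⊆ Y) :
    cf Y (lin (gf κ B Fl S) ^ Fintype.card B * q) =
      (Fintype.card B).factorial * cf (Y \ Gs κ B Fl) q := by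
  have hc : (Gs κ B Fl).card = Fintype.card B := by
    rw [Gs, Finset.card_disjSum, Finset.card_disjSum, Finset.card_univ, Finset.card_empty,
      Finset.card_empty]
    ring
  have h1 := cf_pow_card_mul (Gs κ B Fl) (gf κ B Fl S) (by
    rintro (p | p | p) hp
    · rfl
    · simp [Gs] at hp
    · rfl) q Y
  rw [hc, if_pos h] at h1
  rw [h1, Finset.prod_eq_one, one_mul]
  rintro (p | p | p) hp
  · simp [Gs] at hp
  · rfl
  · simp [Gs] at hp

lemma cf_blocks (s : Finset κ) (q : MvPolynomial ((κ × B) ⊕ (B ⊕ Fl)) S)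
    (Y : Finset ((κ × B) ⊕ (B ⊕ Fl))) (h : Jb B Fl s ⊆ Y) :
    cf Y ((∏ I ∈ s, lin (bf B Fl S I) ^ Fintype.card B) * q) =
      (Fintype.card B).factorial ^ s.card * cf (Y \ Jb B Fl s) q := by
  induction s using Finset.induction_on generalizing Y with
  | empty =>
    rw [Finset.prod_empty, one_mul, Finset.card_empty, pow_zero, one_mul]
    congr 1
    ext r
    simp [Jb]
  | insert I s hI ih =>
    have h1 : Jb B Fl {I} ⊆ Y := by
      intro r hr
      apply h
      rcases r with p | p
      · simp only [Jb, Finset.inl_mem_disjSum, Finset.mem_product, Finset.mem_singleton,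
          Finset.mem_univ, and_true, Finset.mem_insert] at hr ⊢
        exact Or.inl hr
      · simp [Jb] at hr
    have h2 : Jb B Fl s ⊆ Y \ Jb B Fl {I} := by
      intro r hr
      rw [Finset.mem_sdiff]
      rcases r with p | p
      · constructor
        · apply h
          simp only [Jb, Finset.inl_mem_disjSum, Finset.mem_product,
            Finset.mem_univ, and_true, Finset.mem_insert] at hr ⊢
          exact Or.inr hr
        · simp only [Jb, Finset.inl_mem_disjSum, Finset.mem_product, Finset.mem_singleton,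
            Finset.mem_univ, and_true] at hr ⊢
          intro hp
          rw [hp] at hr
          exact hI hr
      · simp [Jb] at hr
    rw [Finset.prod_insert hI, mul_assoc, cf_block I _ Y h1, ih _ h2,
      Finset.card_insert_of_notMem hI, pow_succ]
    have h3 : (Y \ Jb B Fl {I}) \ Jb B Fl s = Y \ Jb B Fl (insert I s) := by
      ext r
      rcases r with p | p
      · simp only [Jb, Finset.inl_mem_disjSum, Finset.mem_product, Finset.mem_singleton,
          Finset.mem_univ, and_true, Finset.mem_insert, Finset.mem_sdiff]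
        tauto
      · simp [Jb]
    rw [h3]
    ring

lemma cf_main (x : κ → B → D → S) (I : κ) (s : Finset D) (A : Finset B) (F' : Finset Fl)
    (h : A.card + F'.card = s.card) :
    cf (Ys I A F') (∏ c ∈ s, lin (mf Fl x c)) = F'.card.factorial * pi (x I) s A := by
  induction s using Finset.induction_on generalizing A F' with
  | empty =>
    rw [Finset.card_empty] at h
    have hA : A = ∅ := Finset.card_eq_zero.1 (by omega)
    have hF : F' = ∅ := Finset.card_eq_zero.1 (by omega)
    subst hA hF
    rw [Finset.prod_empty, cf_one, if_pos (by ext r; rcases r with p | p | p <;> simp [Ys]),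
      pi_empty, if_pos rfl]
    simp
  | insert c s hc ih =>
    rw [Finset.card_insert_of_notMem hc] at h
    have h1 : ∀ a ∈ A, cf ((Ys I A F').erase (Sum.inl (I, a))) (∏ c ∈ s, lin (mf Fl x c)) =
        F'.card.factorial * pi (x I) s (A.erase a) := by
      intro a ha
      have h2 : (Ys I A F').erase (Sum.inl (I, a)) = Ys I (A.erase a) F' := by
        ext r
        rcases r with ⟨i, p⟩ | p | p
        · simp only [Ys, Finset.mem_erase, Finset.inl_mem_disjSum, Finset.mem_product,
            Finset.mem_singleton, ne_eq, Sum.inl.injEq, Prod.mk.injEq, not_and]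
          constructor
          · rintro ⟨h3, h4, h5⟩
            exact ⟨h4, h3 h4, h5⟩
          · rintro ⟨h3, h4, h5⟩
            exact ⟨fun _ => h4, h3, h5⟩
        · simp [Ys]
        · simp [Ys]
      rw [h2]
      apply ih
      rw [Finset.card_erase_of_mem ha]
      have := Finset.card_pos.2 ⟨a, ha⟩
      omega
    have h2 : ∀ f ∈ F', cf ((Ys I A F').erase (Sum.inr (Sum.inr f)))
        (∏ c ∈ s, lin (mf Fl x c)) = (F'.card - 1).factorial * pi (x I) s A := by
      intro f hf
      have h2 : (Ys I A F').erase (Sum.inr (Sum.inr f)) = Ys I A (F'.erase f) := by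
        ext r
        rcases r with p | p | p
        · simp [Ys]
        · simp [Ys]
        · simp [Ys]
      rw [h2]
      have h3 := ih A (F'.erase f) (by
        rw [Finset.card_erase_of_mem hf]
        have := Finset.card_pos.2 ⟨f, hf⟩
        omega)
      rw [h3, Finset.card_erase_of_mem hf]
    have h3 : cf (Ys I A F') (∏ c ∈ insert c s, lin (mf Fl x c)) =
        ∑ a ∈ A, x I a c * cf ((Ys I A F').erase (Sum.inl (I, a))) (∏ c ∈ s, lin (mf Fl x c)) +
        ∑ f ∈ F', cf ((Ys I A F').erase (Sum.inr (Sum.inr f))) (∏ c ∈ s, lin (mf Fl x c)) := by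
      rw [Finset.prod_insert hc, cf_lin_mul]
      conv_lhs => rw [Ys]
      rw [Finset.sum_disjSum, Finset.sum_product, Finset.sum_singleton, Finset.sum_disjSum,
        Finset.sum_empty, zero_add]
      congr 1
      apply Finset.sum_congr rfl
      intro f _
      rw [mf, one_mul]
      rfl
    rw [h3, Finset.sum_congr rfl (fun a ha => by rw [h1 a ha]), Finset.sum_congr rfl h2,
      Finset.sum_const, pi_insert _ _ _ hc, nsmul_eq_mul]
    have h4 : (F'.card : S) * ((F'.card - 1).factorial * pi (x I) s A) =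
        F'.card.factorial * pi (x I) s A := by
      rcases Nat.eq_zero_or_pos F'.card with h5 | h5
      · rw [pi_eq_zero (x I) s A (by omega)]
        ring
      · rw [← mul_assoc, ← Nat.cast_mul, Nat.mul_factorial_pred h5.ne']
    rw [h4, mul_add, Finset.mul_sum, add_comm]
    congr 1
    apply Finset.sum_congr rfl
    intro a _
    ring

/-- **Direct sums.** -/
theorem per_dm {b : ℕ} (hb : Fintype.card B = b) (hb0 : b ≠ 0)
    (hD : Fintype.card B + Fintype.card Fl = Fintype.card D) (ζ : Fin b → S)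
    (hζ : ∀ x y : MvPolynomial ((κ × B) ⊕ (B ⊕ Fl)) S, ∏ m, (x - C (ζ m) * y) = x ^ b - y ^ b)
    (x : κ → B → D → S) :
    Perm.per (dm (Fl := Fl) ζ x) = -((b.factorial : S) ^ Fintype.card κ) *
      (Fintype.card Fl).factorial * ∑ I, pi (x I) Finset.univ Finset.univ := by
  have hper : Perm.per (dm (Fl := Fl) ζ x) = cf Finset.univ
      (∏ c : (κ × Fin b) ⊕ D, lin fun r => dm (Fl := Fl) ζ x r c) := by
    rw [cf_univ]
    have h1 := Perm.top_prod_linear (S := S) (I := (κ × Fin b) ⊕ D) (J := (κ × B) ⊕ (B ⊕ Fl))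
      (fun c r => dm (Fl := Fl) ζ x r c)
    simp only [lin]
    rw [h1, Perm.per]
    apply Fintype.sum_equiv (⟨Equiv.symm, Equiv.symm, fun _ => rfl, fun _ => rfl⟩ :
      ((κ × B) ⊕ (B ⊕ Fl) ≃ (κ × Fin b) ⊕ D) ≃ ((κ × Fin b) ⊕ D ≃ (κ × B) ⊕ (B ⊕ Fl)))
    intro e
    have h2 := Equiv.prod_comp e (fun c => dm (Fl := Fl) ζ x (e.symm c) c)
    simp only [Equiv.symm_apply_apply] at h2
    exact h2
  have hcols : (∏ c : (κ × Fin b) ⊕ D, lin fun r => dm (Fl := Fl) ζ x r c) =
      (∏ I : κ, (-(lin (gf κ B Fl S) ^ b) + lin (bf B Fl S I) ^ b)) *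
        ∏ c : D, lin (mf Fl x c) := by
    rw [Fintype.prod_sum_type, Fintype.prod_prod_type]
    have hmain : ∀ c : D, (fun r => dm (Fl := Fl) ζ x r (Sum.inr c)) = mf Fl x c := by
      intro c
      funext r
      rcases r with p | p | p <;> rfl
    simp only [hmain]
    congr 1
    apply Finset.prod_congr rfl
    intro I _
    rw [neg_add_eq_sub, ← hζ]
    apply Finset.prod_congr rfl
    intro m _
    rw [lin, lin, lin, Finset.mul_sum, ← Finset.sum_sub_distrib]
    apply Finset.sum_congr rfl
    rintro (p | p | p) _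
    · simp only [dm, bf, gf, map_zero, zero_mul, mul_zero, sub_zero]
    · simp only [dm, bf, gf, map_zero, zero_mul, map_neg, map_one, one_mul]
      ring
    · simp only [dm, bf, gf, map_zero, zero_mul, mul_zero, sub_zero]
  rw [hper, hcols, Finset.prod_add, Finset.sum_mul, cf_sum]
  have hBne : Nonempty B := by
    rw [← Fintype.card_pos_iff, hb]
    omega
  have hzero : ∀ t ∈ (Finset.univ : Finset κ).powerset, t.card ≠ 1 →
      cf Finset.univ ((∏ I ∈ t, -(lin (gf κ B Fl S) ^ b)) *
        (∏ I ∈ Finset.univ \ t, lin (bf B Fl S I) ^ b) * ∏ c : D, lin (mf Fl x c)) = 0 := by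
    intro t _ ht
    rw [Finset.prod_const]
    obtain ⟨g⟩ := hBne
    have hmain : NoVar (Sum.inr (Sum.inl g)) (∏ c : D, lin (mf Fl x c)) := by
      have h1 := noVar_prod_mul (S := S) (J := (κ × B) ⊕ (B ⊕ Fl)) (Sum.inr (Sum.inl g))
        (Finset.univ : Finset D) (mf Fl x) (fun c => rfl) 1 1 (noVar_one _)
      simpa using h1
    rcases Nat.lt_or_ge t.card 1 with h0 | h0
    · have h1 : t.card = 0 := by omega
      rw [h1, pow_zero, one_mul]
      exact noVar_prod_mul (Sum.inr (Sum.inl g)) (Finset.univ \ t) (bf B Fl S)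
        (fun I => rfl) b _ hmain _ (Finset.mem_univ _)
    · obtain ⟨m, hm⟩ : ∃ m, t.card = m + 2 := ⟨t.card - 2, by omega⟩
      have h1 : (-(lin (gf κ B Fl S) ^ b)) ^ t.card *
          (∏ I ∈ Finset.univ \ t, lin (bf B Fl S I) ^ b) * ∏ c : D, lin (mf Fl x c) =
          lin (gf κ B Fl S) ^ Fintype.card B * (lin (gf κ B Fl S) ^ b *
            ((-(lin (gf κ B Fl S) ^ b)) ^ m *
          (∏ I ∈ Finset.univ \ t, lin (bf B Fl S I) ^ b) * ∏ c : D, lin (mf Fl x c))) := by
        rw [hm, hb, pow_add (-(lin (gf κ B Fl S) ^ b)) m 2]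
        ring
      rw [h1, cf_glob _ _ (Finset.subset_univ _), cf_pow_zero _ _ _ _ b hb0, mul_zero]
      rintro (p | p | p) hp
      · rfl
      · simp [Gs] at hp
      · rfl
  have hone : ∀ I : κ, cf Finset.univ ((∏ I ∈ ({I} : Finset κ), -(lin (gf κ B Fl S) ^ b)) *
        (∏ I ∈ Finset.univ \ {I}, lin (bf B Fl S I) ^ b) * ∏ c : D, lin (mf Fl x c)) =
        -((b.factorial : S) ^ Fintype.card κ) * (Fintype.card Fl).factorial *
          pi (x I) Finset.univ Finset.univ := by
    intro I
    rw [Finset.prod_singleton, neg_mul, neg_mul, mul_assoc]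
    have h1 : lin (gf κ B Fl S) ^ b * ((∏ I ∈ Finset.univ \ {I}, lin (bf B Fl S I) ^ b) *
        ∏ c : D, lin (mf Fl x c)) = lin (gf κ B Fl S) ^ Fintype.card B *
        ((∏ I ∈ Finset.univ \ {I}, lin (bf B Fl S I) ^ Fintype.card B) *
        ∏ c : D, lin (mf Fl x c)) := by rw [hb]
    rw [h1, cf_neg, cf_glob _ _ (Finset.subset_univ _), cf_blocks]
    · have h2 : (Finset.univ \ Gs κ B Fl) \ Jb B Fl (Finset.univ \ {I}) =
          Ys I (Finset.univ : Finset B) (Finset.univ : Finset Fl) := by
        ext r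
        rcases r with p | p | p
        · simp only [Gs, Jb, Ys, Finset.mem_sdiff, Finset.mem_univ, Finset.inl_mem_disjSum,
            Finset.mem_product, Finset.mem_singleton, Finset.notMem_empty]
          tauto
        · simp [Gs, Jb, Ys]
        · simp [Gs, Jb, Ys]
      have h3 := cf_main x I Finset.univ (Finset.univ : Finset B) (Finset.univ : Finset Fl) (by
        rw [Finset.card_univ, Finset.card_univ, Finset.card_univ, hD])
      have h4 : (Finset.univ \ ({I} : Finset κ)).card + 1 = Fintype.card κ := by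
        rw [Finset.card_sdiff, Finset.inter_univ, Finset.card_singleton, Finset.card_univ]
        have : 0 < Fintype.card κ := Fintype.card_pos_iff.2 ⟨I⟩
        omega
      rw [h2, h3, hb, ← h4, pow_succ, Finset.card_univ]
      ring
    · intro r hr
      rw [Finset.mem_sdiff]
      refine ⟨Finset.mem_univ _, ?_⟩
      rcases r with p | p
      · simp [Gs]
      · simp [Jb] at hr
  have hsub : ((Finset.univ : Finset κ).powersetCard 1) ⊆ (Finset.univ : Finset κ).powerset := by
    intro t _
    rw [Finset.mem_powerset]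
    exact Finset.subset_univ _
  rw [← Finset.sum_subset hsub, Finset.powersetCard_one, Finset.sum_map, Finset.mul_sum]
  · apply Finset.sum_congr rfl
    intro I _
    exact hone I
  · intro t ht ht'
    apply hzero t ht
    intro h1
    apply ht'
    rw [Finset.mem_powersetCard]
    exact ⟨Finset.subset_univ _, h1⟩

end direct

end Pool.Agent.V7H63.Deg
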