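import Pool.Agent.V7H63.Deg.Count

/-!
# Triangular systems and terms of lowest order
-/

set_option autoImplicit false

open MvPolynomial Finset

namespace Pool.Agent.V7H63.Deg

universe u v w

section tri

variable {S : Type u} [CommRing S] {ρ : Type} [Fintype ρ]

/-- the system `P` is triangular with respect to the rank `rk`, with diagonal `c` -/
def Tri (P : ρ → MvPolynomial ρ S) (rk : ρ → ℕ) (c : ρ → S) : Prop :=
  ∀ (A : ρ) (f g : ρ → MvPolynomial ρ S), (∀ A', rk A' < rk A → f A' = g A') →
    aeval f (P A) - C (c A) * f A = aeval g (P A) - C (c A) * g A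

/-- the approximations of the solution -/
noncomputable def approx (P : ρ → MvPolynomial ρ S) (c d : ρ → S) : ℕ → ρ → MvPolynomial ρ S
  | 0 => 0
  | n + 1 => fun A => C (d A) * (X A - (aeval (approx P c d n) (P A) -
      C (c A) * approx P c d n A))

lemma approx_succ (P : ρ → MvPolynomial ρ S) (c d : ρ → S) (n : ℕ) (A : ρ) :
    approx P c d (n + 1) A = C (d A) * (X A - (aeval (approx P c d n) (P A) -
      C (c A) * approx P c d n A)) := rfl

attribute [irreducible] approx

lemma approx_stable (P : ρ → MvPolynomial ρ S) (rk : ρ → ℕ) (c d : ρ → S)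
    (hP : Tri P rk c) (n : ℕ) (A : ρ) (h : rk A < n) :
    approx P c d (n + 1) A = approx P c d n A := by
  induction n generalizing A with
  | zero => omega
  | succ n ih =>
    have h1 := hP A (approx P c d (n + 1)) (approx P c d n) (by
      intro A' hA'
      exact ih A' (by omega))
    rw [approx_succ P c d (n + 1) A, h1, ← approx_succ P c d n A]

lemma exists_tau (P : ρ → MvPolynomial ρ S) (rk : ρ → ℕ) (c d : ρ → S)
    (hP : Tri P rk c) (hcd : ∀ A, c A * d A = 1) :
    ∃ τ : MvPolynomial ρ S →ₐ[S] MvPolynomial ρ S, ∀ A, τ (P A) = X A := by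
  let N : ℕ := (∑ A, rk A) + 1
  have hN : ∀ A, rk A < N := by
    intro A
    have h1 := Finset.single_le_sum (f := rk) (fun j _ => Nat.zero_le _) (Finset.mem_univ A)
    omega
  refine ⟨aeval (approx P c d N), fun A => ?_⟩
  have h1 := approx_stable P rk c d hP N A (hN A)
  rw [approx_succ] at h1
  have h2 : (C (c A) : MvPolynomial ρ S) * C (d A) = 1 := by
    rw [← map_mul, hcd, map_one]
  have h3 : C (c A) * (C (d A) * (X A - (aeval (approx P c d N) (P A) -
      C (c A) * approx P c d N A))) = C (c A) * approx P c d N A := by rw [h1]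
  rw [← mul_assoc, h2, one_mul] at h3
  linear_combination -h3

lemma constantCoeff_tau (P : ρ → MvPolynomial ρ S) (rk : ρ → ℕ) (c d : ρ → S)
    (hP : Tri P rk c) (hcd : ∀ A, c A * d A = 1)
    (τ : MvPolynomial ρ S →ₐ[S] MvPolynomial ρ S) (hτ : ∀ A, τ (P A) = X A)
    (s : ρ → S) (hs : ∀ A, aeval s (P A) = 0) (q : MvPolynomial ρ S) :
    constantCoeff (τ q) = aeval s q := by
  let s' : ρ → S := fun A => constantCoeff (τ (X A))
  have h0 : ∀ q, constantCoeff (τ q) = aeval s' q := by
    intro q
    induction q using MvPolynomial.induction_on with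
    | C a =>
      have : τ (C a) = C a := by
        have := τ.commutes a
        rwa [algebraMap_eq] at this
      rw [this, constantCoeff_C]
      simp
    | add p q hp hq => rw [map_add, map_add, map_add, hp, hq]
    | mul_X p i hp => rw [map_mul, map_mul, map_mul, hp, aeval_X]
  have h1 : ∀ A, aeval s' (P A) = 0 := by
    intro A
    rw [← h0, hτ]
    simp
  have hC : ∀ (t : ρ → S) (q : MvPolynomial ρ S),
      aeval (fun A => (C (t A) : MvPolynomial ρ S)) q = C (aeval t q) := by
    intro t q
    induction q using MvPolynomial.induction_on with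
    | C a => simp [algebraMap_eq]
    | add p q hp hq => rw [map_add, map_add, map_add, hp, hq]
    | mul_X p i hp => rw [map_mul, map_mul, map_mul, hp, aeval_X, aeval_X]
  have h2 : ∀ n : ℕ, ∀ A, rk A < n → s' A = s A := by
    intro n
    induction n with
    | zero => intro A h; omega
    | succ n ih =>
      intro A hA
      have h3 := hP A (fun A => C (s' A)) (fun A => C (s A)) (by
        intro A' hA'
        rw [ih A' (by omega)])
      rw [hC, hC, h1, hs, ← map_mul, ← map_mul, map_zero, zero_sub, zero_sub, neg_inj] at h3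
      have h4 := C_injective _ _ h3
      calc s' A = (c A * s' A) * d A := by
            rw [mul_comm (c A), mul_assoc, hcd, mul_one]
        _ = (c A * s A) * d A := by rw [h4]
        _ = s A := by rw [mul_comm (c A), mul_assoc, hcd, mul_one]
  rw [h0]
  congr 1
  have h3 : s' = s := by
    funext A
    exact h2 _ A (Nat.lt_succ_self _)
  rw [h3]

end tri

section low

variable {K : Type w} [Field K] {S : Type u} [CommRing S] [Algebra K S] {ρ μ : Type} [Fintype ρ]
  [Fintype μ]

lemma mon_X (γ : ρ → ℕ) : mon (X : ρ → MvPolynomial ρ S) γ =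
    monomial (Finsupp.equivFunOnFinite.symm γ) 1 := by
  rw [mon, MvPolynomial.monomial_eq, map_one, one_mul, Finsupp.prod_fintype _ _ (fun i => by simp)]
  simp

lemma map_mon {R R' : Type*} [CommSemiring R] [CommSemiring R'] (φ : R →+* R') (f : μ → R)
    (α : μ → ℕ) : φ (mon f α) = mon (fun m => φ (f m)) α := by
  rw [mon, mon, map_prod]
  apply Finset.prod_congr rfl
  intro m _
  rw [map_pow]

/-- terms of lowest order -/
lemma low_order {M : ℕ} (h : Fin M → S) (f : μ → MvPolynomial ρ S)
    (hli : LinearIndependent K (fun p : Fin M × (μ → ℕ) => h p.1 *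
      mon (fun m => constantCoeff (f m)) p.2)) :
    LinearIndependent K (fun p : Fin M × (μ → ℕ) × (ρ → ℕ) =>
      (C (h p.1) * mon f p.2.1 * mon X p.2.2 : MvPolynomial ρ S)) := by
  classical
  rw [linearIndependent_iff']
  intro s g hg
  have hmain : ∀ d : ℕ, ∀ i ∈ s, ∑ r, i.2.2 r = d → g i = 0 := by
    intro d
    induction d using Nat.strong_induction_on with
    | _ d ih =>
      intro i0 hi0 hd
      have h1 := congrArg (coeff (Finsupp.equivFunOnFinite.symm i0.2.2)) hg
      rw [coeff_sum, coeff_zero] at h1
      have h2 : ∀ i ∈ s, coeff (Finsupp.equivFunOnFinite.symm i0.2.2)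
          (g i • (C (h i.1) * mon f i.2.1 * mon X i.2.2 : MvPolynomial ρ S)) =
          if i.2.2 = i0.2.2 then g i • (h i.1 * mon (fun m => constantCoeff (f m)) i.2.1)
          else 0 := by
        intro i hi
        rw [coeff_smul, mon_X, coeff_mul_monomial']
        by_cases hlt : ∑ r, i.2.2 r < d
        · rw [ih _ hlt i hi rfl]
          simp
        · by_cases heq : i.2.2 = i0.2.2
          · rw [if_pos heq, heq, if_pos le_rfl, tsub_self, mul_one]
            congr 1
            have h3 := map_mul (constantCoeff : MvPolynomial ρ S →+* S) (C (h i.1))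
              (mon f i.2.1)
            rw [map_mon, constantCoeff_C] at h3
            exact h3
          · rw [if_neg heq, if_neg, smul_zero]
            intro hle
            apply heq
            funext r
            have h4 : ∀ r, i.2.2 r ≤ i0.2.2 r := fun r => hle r
            by_contra hne
            have h5 : ∑ r, i.2.2 r < ∑ r, i0.2.2 r :=
              Finset.sum_lt_sum (fun r _ => h4 r) ⟨r, Finset.mem_univ _,
                lt_of_le_of_ne (h4 r) hne⟩
            omega
      rw [Finset.sum_congr rfl h2, ← Finset.sum_filter] at h1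
      have h3 := (linearIndependent_iff'.1 hli)
        ((s.filter fun i => i.2.2 = i0.2.2).image fun i => (i.1, i.2.1))
        (fun p => g (p.1, p.2, i0.2.2)) (by
          rw [Finset.sum_image]
          · rw [← h1]
            apply Finset.sum_congr rfl
            intro i hi
            rw [Finset.mem_filter] at hi
            obtain ⟨a, b, c⟩ := i
            simp only at hi ⊢
            rw [← hi.2]
          · intro i hi j hj hij
            rw [Finset.mem_coe, Finset.mem_filter] at hi hj
            obtain ⟨a, b, c⟩ := i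
            obtain ⟨a', b', c'⟩ := j
            simp only [Prod.mk.injEq] at hij hi hj ⊢
            exact ⟨hij.1, hij.2, hi.2.trans hj.2.symm⟩)
      have h4 := h3 (i0.1, i0.2.1) (by
        rw [Finset.mem_image]
        exact ⟨i0, by rw [Finset.mem_filter]; exact ⟨hi0, rfl⟩, rfl⟩)
      exact h4
  intro i hi
  exact hmain _ i hi rfl

/-- **Elimination of a triangular system.** -/
theorem elim_tri {M : ℕ} (h : Fin M → S) (f : μ → MvPolynomial ρ S)
    (P : ρ → MvPolynomial ρ S) (rk : ρ → ℕ) (c d : ρ → S)
    (hP : Tri P rk c) (hcd : ∀ A, c A * d A = 1) (s : ρ → S) (hs : ∀ A, aeval s (P A) = 0)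
    (hli : LinearIndependent K (fun p : Fin M × (μ → ℕ) => h p.1 *
      mon (fun m => aeval s (f m)) p.2)) :
    LinearIndependent K (fun p : Fin M × (μ → ℕ) × (ρ → ℕ) =>
      (C (h p.1) * mon f p.2.1 * mon P p.2.2 : MvPolynomial ρ S)) := by
  obtain ⟨τ, hτ⟩ := exists_tau P rk c d hP hcd
  have h1 := low_order (K := K) h (fun m => τ (f m)) (by
    have h2 : ∀ m, constantCoeff (τ (f m)) = aeval s (f m) := fun m =>
      constantCoeff_tau P rk c d hP hcd τ hτ s hs _
    simp only [h2]
    exact hli)
  let T : MvPolynomial ρ S →ₗ[K] MvPolynomial ρ S := (τ.restrictScalars K).toLinearMap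
  have hT : ∀ q, T q = τ q := fun q => rfl
  apply LinearIndependent.of_comp T
  have hfam : (⇑T ∘ fun p : Fin M × (μ → ℕ) × (ρ → ℕ) =>
      (C (h p.1) * mon f p.2.1 * mon P p.2.2 : MvPolynomial ρ S)) =
      fun p : Fin M × (μ → ℕ) × (ρ → ℕ) =>
      (C (h p.1) * mon (fun m => τ (f m)) p.2.1 * mon X p.2.2 : MvPolynomial ρ S) := ?_
  · rw [hfam]
    exact h1
  funext p
  rw [Function.comp_apply, hT]
  rw [map_mul, map_mul]
  have h3 := map_mon (τ : MvPolynomial ρ S →+* MvPolynomial ρ S) f p.2.1
  have h4 := map_mon (τ : MvPolynomial ρ S →+* MvPolynomial ρ S) P p.2.2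
  simp only [RingHom.coe_coe] at h3 h4
  rw [h3, h4]
  have h5 : τ (C (h p.1)) = C (h p.1) := by
    have := τ.commutes (h p.1)
    rwa [algebraMap_eq] at this
  rw [h5]
  congr 2
  funext A
  exact hτ A

end low

end Pool.Agent.V7H63.Deg
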