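import Pool.Agent.V7H63.Perm.PerSum

/-!
# Coefficients of squarefree monomials
-/

set_option autoImplicit false

open MvPolynomial Finset

namespace Pool.Agent.V7H63.Deg

universe u

section comb

variable {J : Type} [DecidableEq J] {S : Type u} [AddCommMonoid S]

lemma sum_erase_powerset (Y : Finset J) (f : J → Finset J → S) :
    ∑ j ∈ Y, ∑ T ∈ (Y.erase j).powerset, f j T = ∑ T ∈ Y.powerset, ∑ j ∈ T, f j (T.erase j) := by
  rw [Finset.sum_sigma', Finset.sum_sigma']
  apply Finset.sum_bij' (fun p _ => (⟨insert p.1 p.2, p.1⟩ : (_ : Finset J) × J))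
    (fun p _ => (⟨p.2, p.1.erase p.2⟩ : (_ : J) × Finset J))
  · rintro ⟨j, T⟩ h
    simp only [Finset.mem_sigma, Finset.mem_powerset] at h ⊢
    refine ⟨?_, Finset.mem_insert_self _ _⟩
    intro i hi
    rw [Finset.mem_insert] at hi
    rcases hi with rfl | hi
    · exact h.1
    · exact Finset.mem_of_mem_erase (h.2 hi)
  · rintro ⟨T, j⟩ h
    simp only [Finset.mem_sigma, Finset.mem_powerset] at h ⊢
    exact ⟨h.1 h.2, Finset.erase_subset_erase _ h.1⟩
  · rintro ⟨j, T⟩ h
    simp only [Finset.mem_sigma, Finset.mem_powerset] at h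
    have hj : j ∉ T := fun hj => Finset.notMem_erase _ _ (h.2 hj)
    simp only [Finset.erase_insert hj]
  · rintro ⟨T, j⟩ h
    simp only [Finset.mem_sigma, Finset.mem_powerset] at h
    simp only [Finset.insert_erase h.2]
  · rintro ⟨j, T⟩ h
    simp only [Finset.mem_sigma, Finset.mem_powerset] at h
    have hj : j ∉ T := fun hj => Finset.notMem_erase _ _ (h.2 hj)
    simp only [Finset.erase_insert hj]

end comb

section cf

variable {J : Type} [Fintype J] [DecidableEq J] {S : Type u} [CommRing S]

/-- the exponent vector of a squarefree monomial -/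
noncomputable def ind (Y : Finset J) : J →₀ ℕ :=
  Finsupp.equivFunOnFinite.symm fun j => if j ∈ Y then 1 else 0

lemma ind_apply (Y : Finset J) (j : J) : ind Y j = if j ∈ Y then 1 else 0 := rfl

/-- the coefficient of a squarefree monomial -/
noncomputable def cf (Y : Finset J) (q : MvPolynomial J S) : S := coeff (ind Y) q

lemma cf_add (Y : Finset J) (p q : MvPolynomial J S) : cf Y (p + q) = cf Y p + cf Y q :=
  coeff_add _ _ _

lemma cf_sub (Y : Finset J) (p q : MvPolynomial J S) : cf Y (p - q) = cf Y p - cf Y q :=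
  coeff_sub _ _ _ _

lemma cf_neg (Y : Finset J) (p : MvPolynomial J S) : cf Y (-p) = - cf Y p :=
  coeff_neg _ _ _

lemma cf_sum {I : Type*} (s : Finset I) (Y : Finset J) (f : I → MvPolynomial J S) :
    cf Y (∑ i ∈ s, f i) = ∑ i ∈ s, cf Y (f i) := coeff_sum _ _ _

lemma cf_C_mul (Y : Finset J) (a : S) (p : MvPolynomial J S) : cf Y (C a * p) = a * cf Y p :=
  coeff_C_mul _ _ _

lemma cf_one (Y : Finset J) : cf Y (1 : MvPolynomial J S) = if Y = ∅ then 1 else 0 := by
  rw [cf, coeff_one]
  congr 1
  rw [eq_iff_iff]
  constructor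
  · intro h
    ext j
    have h1 : ind Y j = 0 := by
      rw [← h]
      rfl
    rw [ind_apply] at h1
    by_contra h2
    have h3 : j ∈ Y := by simpa using h2
    rw [if_pos h3] at h1
    exact one_ne_zero h1
  · rintro rfl
    ext j
    simp [ind_apply]

lemma cf_univ (q : MvPolynomial J S) : cf Finset.univ q = Perm.top J S q := by
  rw [cf, Perm.top_apply]
  congr 1
  ext j
  simp [ind_apply]

lemma cf_X_mul (Y : Finset J) (j : J) (q : MvPolynomial J S) :
    cf Y (X j * q) = if j ∈ Y then cf (Y.erase j) q else 0 := by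
  rw [cf, coeff_X_mul']
  by_cases h : j ∈ Y
  · rw [if_pos h, if_pos (by simp [ind_apply, h]), cf]
    congr 1
    ext i
    rw [Finsupp.tsub_apply, ind_apply, ind_apply, Finsupp.single_apply]
    by_cases hij : j = i
    · subst hij
      simp [h]
    · rw [if_neg hij]
      simp [Ne.symm hij]
  · rw [if_neg h, if_neg (by simp [ind_apply, h])]

/-- a linear form -/
noncomputable def lin (e : J → S) : MvPolynomial J S := ∑ j, C (e j) * X j

lemma cf_lin_mul (Y : Finset J) (e : J → S) (q : MvPolynomial J S) :
    cf Y (lin e * q) = ∑ j ∈ Y, e j * cf (Y.erase j) q := by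
  rw [lin, Finset.sum_mul, cf_sum]
  have h1 : ∀ j, cf Y (C (e j) * X j * q) = if j ∈ Y then e j * cf (Y.erase j) q else 0 := by
    intro j
    rw [mul_assoc, cf_C_mul, cf_X_mul]
    split_ifs
    · rfl
    · rw [mul_zero]
  rw [Finset.sum_congr rfl (fun j _ => h1 j), Finset.sum_ite_mem, Finset.univ_inter]

lemma cf_pow_mul (e : J → S) (q : MvPolynomial J S) (m : ℕ) (Y : Finset J) :
    cf Y (lin e ^ m * q) = m.factorial * ∑ T ∈ Y.powerset,
      if T.card = m then (∏ j ∈ T, e j) * cf (Y \ T) q else 0 := by
  induction m generalizing Y with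
  | zero =>
    rw [pow_zero, one_mul, Nat.factorial_zero, Nat.cast_one, one_mul]
    rw [Finset.sum_eq_single ∅]
    · simp
    · intro T _ hT
      rw [if_neg]
      rwa [Finset.card_eq_zero]
    · intro h
      exact absurd (Finset.empty_mem_powerset _) h
  | succ m ih =>
    rw [pow_succ', mul_assoc, cf_lin_mul]
    simp only [ih]
    have h1 : ∀ j ∈ Y, e j * (m.factorial * ∑ T ∈ (Y.erase j).powerset,
        if T.card = m then (∏ j ∈ T, e j) * cf (Y.erase j \ T) q else 0) =
        ∑ T ∈ (Y.erase j).powerset, m.factorial * (if T.card = m then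
          e j * ((∏ j ∈ T, e j) * cf (Y.erase j \ T) q) else 0) := by
      intro j _
      rw [Finset.mul_sum, Finset.mul_sum]
      apply Finset.sum_congr rfl
      intro T _
      split_ifs
      · ring
      · ring
    rw [Finset.sum_congr rfl h1, sum_erase_powerset Y (fun j T =>
      (m.factorial : S) * (if T.card = m then
          e j * ((∏ j ∈ T, e j) * cf (Y.erase j \ T) q) else 0)), Finset.mul_sum]
    apply Finset.sum_congr rfl
    intro T _
    by_cases hT : T.card = m + 1
    · rw [if_pos hT]
      have h2 : ∀ j ∈ T, (m.factorial : S) * (if (T.erase j).card = m then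
          e j * ((∏ j ∈ T.erase j, e j) * cf (Y.erase j \ T.erase j) q) else 0) =
          m.factorial * ((∏ j ∈ T, e j) * cf (Y \ T) q) := by
        intro j hj
        rw [if_pos (by rw [Finset.card_erase_of_mem hj, hT]; rfl), ← mul_assoc (e j),
          Finset.mul_prod_erase _ _ hj]
        have h3 : Y.erase j \ T.erase j = Y \ T := by
          ext i
          simp only [Finset.mem_sdiff, Finset.mem_erase]
          by_cases hij : i = j
          · subst hij
            simp [hj]
          · simp [hij]
        rw [h3]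
      rw [Finset.sum_congr rfl h2, Finset.sum_const, hT, Nat.factorial_succ, nsmul_eq_mul]
      push_cast
      ring
    · rw [if_neg hT, mul_zero]
      apply Finset.sum_eq_zero
      intro j hj
      rw [if_neg, mul_zero]
      rw [Finset.card_erase_of_mem hj]
      have := Finset.card_pos.2 ⟨j, hj⟩
      omega

lemma cf_pow_card_mul (J0 : Finset J) (e : J → S) (he : ∀ j, j ∉ J0 → e j = 0)
    (q : MvPolynomial J S) (Y : Finset J) :
    cf Y (lin e ^ J0.card * q) = if J0 ⊆ Y then
      J0.card.factorial * ((∏ j ∈ J0, e j) * cf (Y \ J0) q) else 0 := by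
  rw [cf_pow_mul]
  have h1 : ∀ T ∈ Y.powerset, T ≠ J0 → (if T.card = J0.card then
      (∏ j ∈ T, e j) * cf (Y \ T) q else 0) = 0 := by
    intro T _ hT
    split_ifs with hc
    · have h2 : ∃ j ∈ T, j ∉ J0 := by
        by_contra h3
        push Not at h3
        exact hT (Finset.eq_of_subset_of_card_le h3 hc.ge)
      obtain ⟨j, hj, hj'⟩ := h2
      rw [Finset.prod_eq_zero hj (he j hj'), zero_mul]
    · rfl
  by_cases h : J0 ⊆ Y
  · rw [if_pos h, Finset.sum_eq_single J0 h1, if_pos rfl]
    intro h3
    exact absurd (Finset.mem_powerset.2 h) h3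
  · rw [if_neg h, Finset.sum_eq_zero, mul_zero]
    intro T hT
    apply h1 T hT
    rintro rfl
    exact h (Finset.mem_powerset.1 hT)

lemma cf_pow_zero (e : J → S) (q : MvPolynomial J S) (Y : Finset J) (he : ∀ j ∈ Y, e j = 0)
    (m : ℕ) (hm : m ≠ 0) : cf Y (lin e ^ m * q) = 0 := by
  obtain ⟨m, rfl⟩ := Nat.exists_eq_succ_of_ne_zero hm
  rw [pow_succ', mul_assoc, cf_lin_mul]
  apply Finset.sum_eq_zero
  intro j hj
  rw [he j hj, zero_mul]

/-- inversion -/
lemma cf_inv (e : J → S) (q : MvPolynomial J S) (Y : Finset J) :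
    cf Y q = ∑ T ∈ Y.powerset, (-1) ^ T.card * T.card.factorial * (∏ j ∈ T, e j) *
      cf (Y \ T) ((1 + lin e) * q) := by
  induction hn : Y.card generalizing Y with
  | zero =>
    rw [Finset.card_eq_zero] at hn
    subst hn
    rw [Finset.powerset_empty, Finset.sum_singleton, add_mul, one_mul, cf_add, cf_lin_mul]
    simp
  | succ n ih =>
    have h1 : cf Y ((1 + lin e) * q) = cf Y q + ∑ j ∈ Y, e j * cf (Y.erase j) q := by
      rw [add_mul, one_mul, cf_add, cf_lin_mul]
    have h2 : ∑ j ∈ Y, e j * cf (Y.erase j) q = ∑ j ∈ Y, ∑ T ∈ (Y.erase j).powerset,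
        e j * ((-1) ^ T.card * T.card.factorial * (∏ j ∈ T, e j) *
      cf (Y.erase j \ T) ((1 + lin e) * q)) := by
      apply Finset.sum_congr rfl
      intro j hj
      rw [ih (Y.erase j) (by rw [Finset.card_erase_of_mem hj, hn]; rfl), Finset.mul_sum]
    rw [sum_erase_powerset Y (fun j T => e j * ((-1) ^ T.card * T.card.factorial *
      (∏ j ∈ T, e j) * cf (Y.erase j \ T) ((1 + lin e) * q)))] at h2
    have h3 : ∀ T ∈ Y.powerset, ∑ j ∈ T, e j * ((-1) ^ (T.erase j).card *
        (T.erase j).card.factorial *
        (∏ j ∈ T.erase j, e j) * cf (Y.erase j \ T.erase j) ((1 + lin e) * q)) =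
        - (if T = ∅ then 0 else (-1) ^ T.card * T.card.factorial * (∏ j ∈ T, e j) *
          cf (Y \ T) ((1 + lin e) * q)) := by
      intro T _
      by_cases hT : T = ∅
      · rw [if_pos hT, hT]
        simp
      · rw [if_neg hT]
        have hpos : 0 < T.card := Finset.card_pos.2 (Finset.nonempty_iff_ne_empty.2 hT)
        obtain ⟨m, hm⟩ := Nat.exists_eq_succ_of_ne_zero hpos.ne'
        have h4 : ∀ j ∈ T, e j * ((-1) ^ (T.erase j).card * (T.erase j).card.factorial *
            (∏ j ∈ T.erase j, e j) * cf (Y.erase j \ T.erase j) ((1 + lin e) * q)) =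
            (-1) ^ m * m.factorial * (∏ j ∈ T, e j) * cf (Y \ T) ((1 + lin e) * q) := by
          intro j hj
          have h5 : Y.erase j \ T.erase j = Y \ T := by
            ext i
            simp only [Finset.mem_sdiff, Finset.mem_erase]
            by_cases hij : i = j
            · subst hij
              simp [hj]
            · simp [hij]
          have h6 : (T.erase j).card = m := by
            rw [Finset.card_erase_of_mem hj, hm]
            rfl
          rw [h5, h6, ← Finset.mul_prod_erase _ _ hj]
          ring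
        rw [Finset.sum_congr rfl h4, Finset.sum_const, hm, nsmul_eq_mul, Nat.succ_eq_add_one,
          Nat.factorial_succ, pow_succ]
        push_cast
        ring
    rw [Finset.sum_congr rfl h3, Finset.sum_neg_distrib] at h2
    have h7 : cf Y q = cf Y ((1 + lin e) * q) + ∑ T ∈ Y.powerset,
        (if T = ∅ then 0 else (-1) ^ T.card * T.card.factorial * (∏ j ∈ T, e j) *
          cf (Y \ T) ((1 + lin e) * q)) := by
      rw [h1, h2]
      ring
    rw [h7, ← Finset.add_sum_erase _ _ (Finset.empty_mem_powerset Y),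
      ← Finset.add_sum_erase _ _ (Finset.empty_mem_powerset Y), if_pos rfl, zero_add]
    congr 1
    · simp
    · apply Finset.sum_congr rfl
      intro T hT
      rw [if_neg (Finset.ne_of_mem_erase hT)]

lemma cf_map {S' : Type u} [CommRing S'] (φ : S →+* S') (Y : Finset J) (q : MvPolynomial J S) :
    cf Y (map φ q) = φ (cf Y q) := by
  rw [cf, cf, coeff_map]

end cf

section pi

variable {B D : Type} [Fintype B] [DecidableEq B] [DecidableEq D] {S : Type u} [CommRing S]

/-- the generating polynomial of a set of columns -/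
noncomputable def gen (x : B → D → S) (s : Finset D) : MvPolynomial B S :=
  ∏ c ∈ s, (1 + lin fun a => x a c)

/-- the sum of the products over all injective maps from a set of rows to a set of columns -/
noncomputable def pi (x : B → D → S) (s : Finset D) (A : Finset B) : S := cf A (gen x s)

lemma pi_empty (x : B → D → S) (A : Finset B) : pi x ∅ A = if A = ∅ then 1 else 0 := by
  rw [pi, gen, Finset.prod_empty, cf_one]

lemma pi_insert (x : B → D → S) (s : Finset D) (c : D) (hc : c ∉ s) (A : Finset B) :
    pi x (insert c s) A = pi x s A + ∑ a ∈ A, x a c * pi x s (A.erase a) := by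
  rw [pi, gen, Finset.prod_insert hc, add_mul, one_mul, cf_add, cf_lin_mul]
  rfl

lemma pi_eq_zero (x : B → D → S) (s : Finset D) (A : Finset B) (h : s.card < A.card) :
    pi x s A = 0 := by
  induction s using Finset.induction_on generalizing A with
  | empty =>
    rw [pi_empty, if_neg]
    rintro rfl
    simp at h
  | insert c s hc ih =>
    rw [Finset.card_insert_of_notMem hc] at h
    rw [pi_insert x s c hc, ih A (by omega), zero_add]
    apply Finset.sum_eq_zero
    intro a ha
    rw [ih, mul_zero]
    rw [Finset.card_erase_of_mem ha]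
    omega

lemma pi_erase (x : B → D → S) (s : Finset D) (c : D) (hc : c ∈ s) (A : Finset B) :
    pi x (s.erase c) A = ∑ T ∈ A.powerset, (-1) ^ T.card * T.card.factorial *
      (∏ a ∈ T, x a c) * pi x s (A \ T) := by
  rw [pi, cf_inv (fun a => x a c)]
  apply Finset.sum_congr rfl
  intro T _
  rw [pi, gen, gen, Finset.mul_prod_erase s (fun c => 1 + lin fun a => x a c) hc]

lemma map_pi {S' : Type u} [CommRing S'] (φ : S →+* S') (x : B → D → S) (s : Finset D)
    (A : Finset B) : φ (pi x s A) = pi (fun a c => φ (x a c)) s A := by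
  rw [pi, pi, ← cf_map, gen, gen, map_prod]
  congr 1
  apply Finset.prod_congr rfl
  intro c _
  rw [map_add, map_one, lin, lin, map_sum]
  simp only [map_mul, map_C, map_X]

lemma pi_congr (x y : B → D → S) (s : Finset D) (h : ∀ a, ∀ c ∈ s, x a c = y a c)
    (A : Finset B) : pi x s A = pi y s A := by
  rw [pi, pi, gen, gen]
  congr 1
  apply Finset.prod_congr rfl
  intro c hc
  congr 2
  funext a
  exact h a c hc

end pi

section deriv

variable {B D κ : Type} [Fintype B] [DecidableEq B] [DecidableEq D] [DecidableEq κ]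
  {K : Type u} [CommRing K]

/-- the generic entries of a block -/
noncomputable def gx (K : Type u) [CommRing K] (I : κ) (a : B) (c : D) :
    MvPolynomial (κ × B × D) K := X (I, a, c)

lemma pderiv_pi_notMem (I I' : κ) (a : B) (c : D) (s : Finset D) (A : Finset B)
    (h : I' ≠ I ∨ c ∉ s) : pderiv (I', a, c) (pi (gx K I) s A) = 0 := by
  induction s using Finset.induction_on generalizing A with
  | empty =>
    rw [pi_empty]
    split_ifs
    · exact pderiv_one
    · exact map_zero _
  | insert d s hd ih =>
    have h1 : I' ≠ I ∨ c ∉ s := by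
      rcases h with h | h
      · exact Or.inl h
      · exact Or.inr fun hc => h (Finset.mem_insert_of_mem hc)
    rw [pi_insert _ _ _ hd, map_add, map_sum, ih A h1, zero_add]
    apply Finset.sum_eq_zero
    intro a' _
    rw [pderiv_mul, ih _ h1, mul_zero, add_zero, gx, pderiv_X_of_ne, zero_mul]
    intro h2
    simp only [Prod.mk.injEq] at h2
    rcases h with h | h
    · exact h h2.1.symm
    · apply h
      rw [← h2.2.2]
      exact Finset.mem_insert_self _ _

lemma pderiv_pi (I : κ) (a : B) (c : D) (s : Finset D) (A : Finset B) (hc : c ∈ s) (ha : a ∈ A) :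
    pderiv (I, a, c) (pi (gx K I) s A) = pi (gx K I) (s.erase c) (A.erase a) := by
  have h1 := pi_insert (gx K I) (s.erase c) c (Finset.notMem_erase _ _) A
  rw [Finset.insert_erase hc] at h1
  have h0 : ∀ A' : Finset B, pderiv (I, a, c) (pi (gx K I) (s.erase c) A') = 0 := fun A' =>
    pderiv_pi_notMem I I a c (s.erase c) A' (Or.inr (Finset.notMem_erase _ _))
  rw [h1, map_add, map_sum, h0, zero_add]
  rw [Finset.sum_eq_single a]
  · rw [pderiv_mul, h0, mul_zero, add_zero, gx, pderiv_X_self, one_mul]
  · intro a' _ ha'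
    rw [pderiv_mul, h0, mul_zero, add_zero, gx, pderiv_X_of_ne, zero_mul]
    intro h2
    simp only [Prod.mk.injEq] at h2
    exact ha' h2.2.1
  · intro h2
    exact absurd ha h2

lemma pderiv_sum_pi [Fintype κ] (I : κ) (a : B) (c : D) (s : Finset D) (A : Finset B)
    (hc : c ∈ s) (ha : a ∈ A) :
    pderiv (I, a, c) (∑ I' : κ, pi (gx K I') s A) = pi (gx K I) (s.erase c) (A.erase a) := by
  rw [map_sum, Finset.sum_eq_single I]
  · exact pderiv_pi I a c s A hc ha
  · intro I' _ hI'
    exact pderiv_pi_notMem I' I a c s A (Or.inl (Ne.symm hI'))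
  · intro h
    exact absurd (Finset.mem_univ _) h

end deriv

end Pool.Agent.V7H63.Deg
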