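import Pool.Agent.V7H63.Deg.Bound

/-!
# Programs for the permanent
-/

set_option autoImplicit false

open MvPolynomial Finset

namespace Pool.Agent.V7H63.Deg

universe u

section ext

variable {V : Type} {F K : Type u} [Field F] [Field K] [Algebra F K] {L : ℕ}

lemma map_mem_span' (W : Set (MvPolynomial V F)) (W' : Set (MvPolynomial V K))
    (hW : ∀ h ∈ W, map (algebraMap F K) h ∈ W') (q : MvPolynomial V F)
    (hq : q ∈ Submodule.span F ({1} ∪ Set.range X ∪ W)) :
    map (algebraMap F K) q ∈ Submodule.span K ({1} ∪ Set.range X ∪ W') := by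
  induction hq using Submodule.span_induction with
  | mem h hh =>
    apply Submodule.subset_span
    rcases hh with (hh | ⟨v, rfl⟩) | hh
    · rw [Set.mem_singleton_iff] at hh
      rw [hh, map_one]
      exact Or.inl (Or.inl rfl)
    · rw [map_X]
      exact Or.inl (Or.inr ⟨v, rfl⟩)
    · exact Or.inr (hW h hh)
  | zero =>
    rw [map_zero]
    exact Submodule.zero_mem _
  | add u v _ _ hu hv =>
    rw [map_add]
    exact Submodule.add_mem _ hu hv
  | smul c u _ hu =>
    rw [smul_eq_C_mul, map_mul, map_C, ← smul_eq_C_mul]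
    exact Submodule.smul_mem _ _ hu

lemma Prog.map {a b : Fin L → MvPolynomial V F} (h : Prog a b) :
    Prog (fun t => MvPolynomial.map (algebraMap F K) (a t))
      (fun t => MvPolynomial.map (algebraMap F K) (b t)) := by
  intro t
  have hW : ∀ q ∈ {h | ∃ i < t, h = a i * b i}, MvPolynomial.map (algebraMap F K) q ∈
      {h | ∃ i < t, h = MvPolynomial.map (algebraMap F K) (a i) *
        MvPolynomial.map (algebraMap F K) (b i)} := by
    rintro q ⟨i, hi, rfl⟩
    exact ⟨i, hi, map_mul _ _ _⟩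
  exact ⟨map_mem_span' _ _ hW _ (h t).1, map_mem_span' _ _ hW _ (h t).2⟩

lemma output_map {a b : Fin L → MvPolynomial V F} (q : MvPolynomial V F)
    (hq : q ∈ Submodule.span F ({1} ∪ Set.range X ∪ {h | ∃ i, h = a i * b i})) :
    MvPolynomial.map (algebraMap F K) q ∈ Submodule.span K ({1} ∪ Set.range X ∪
      {h | ∃ i, h = MvPolynomial.map (algebraMap F K) (a i) *
        MvPolynomial.map (algebraMap F K) (b i)}) := by
  apply map_mem_span' _ _ _ _ hq
  rintro q ⟨i, rfl⟩
  exact ⟨i, map_mul _ _ _⟩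

end ext

section projection

variable {K : Type u} [Field K] [IsAlgClosed K]

/-- A program for the permanent gives a program for a direct sum. -/
lemma exists_subst {n k l r : ℕ} (hr : 1 ≤ r) (hl : 2 * r ≤ l)
    (hn : n = k * (2 * r) + Fintype.card (Cl l r)) (hK : (n.factorial : K) ≠ 0) :
    ∃ y : Fin n × Fin n → MvPolynomial (Fin k × Bk r × Cl l r) K,
      (∀ v, y v ∈ Submodule.span K ({1} ∪ Set.range
        (X : Fin k × Bk r × Cl l r → MvPolynomial (Fin k × Bk r × Cl l r) K))) ∧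
      ∃ c : K, c ≠ 0 ∧ aeval y (Perm.permX n K) = C c * ∑ I : Fin k, pi (gx K I)
        (Finset.univ : Finset (Cl l r)) (Finset.univ : Finset (Bk r)) := by
  classical
  have hfac : ∀ m ≤ n, (m.factorial : K) ≠ 0 := by
    intro m hm h
    apply hK
    obtain ⟨t, ht⟩ := Nat.factorial_dvd_factorial hm
    rw [ht, Nat.cast_mul, h, zero_mul]
  have hCl : l ≤ Fintype.card (Cl l r) := by
    rw [Fintype.card_sum, Fintype.card_fin]
    omega
  have hb0 : (((2 * r : ℕ)) : K) ≠ 0 := by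
    intro h
    apply hfac (2 * r) (by omega)
    have h2 : 2 * r ∣ (2 * r).factorial := Nat.dvd_factorial (by omega) le_rfl
    obtain ⟨t, ht⟩ := h2
    rw [ht, Nat.cast_mul, h, zero_mul]
  obtain ⟨ζ, hζ⟩ := exists_roots K (2 * r) hb0
  have hB : Fintype.card (Bk r) = 2 * r := by
    rw [Fintype.card_sum, Fintype.card_fin]
    ring
  let Fl : Type := Fin (Fintype.card (Cl l r) - 2 * r)
  have hrows : Fintype.card (Fin n) = Fintype.card ((Fin k × Bk r) ⊕ (Bk r ⊕ Fl)) := by
    rw [Fintype.card_sum, Fintype.card_sum (α := Bk r), Fintype.card_prod, hB]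
    simp only [Fintype.card_fin, Fl]
    omega
  have hcols : Fintype.card (Fin n) = Fintype.card ((Fin k × Fin (2 * r)) ⊕ Cl l r) := by
    rw [Fintype.card_sum (β := Cl l r), Fintype.card_prod]
    simp only [Fintype.card_fin]
    omega
  let eR := Fintype.equivOfCardEq hrows
  let eC := Fintype.equivOfCardEq hcols
  let ζ' : Fin (2 * r) → MvPolynomial (Fin k × Bk r × Cl l r) K := fun m => C (ζ m)
  let D : (Fin k × Bk r) ⊕ (Bk r ⊕ Fl) → (Fin k × Fin (2 * r)) ⊕ Cl l r →
      MvPolynomial (Fin k × Bk r × Cl l r) K := dm ζ' (gx K)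
  refine ⟨fun v => D (eR v.2) (eC v.1), ?_, ?_⟩
  · have hone : (1 : MvPolynomial (Fin k × Bk r × Cl l r) K) ∈ Submodule.span K ({1} ∪ Set.range
        (X : Fin k × Bk r × Cl l r → MvPolynomial (Fin k × Bk r × Cl l r) K)) :=
      Submodule.subset_span (Or.inl rfl)
    have hD : ∀ i j, D i j ∈ Submodule.span K ({1} ∪ Set.range
        (X : Fin k × Bk r × Cl l r → MvPolynomial (Fin k × Bk r × Cl l r) K)) := by
      intro i j
      rcases i with i | i | i <;> rcases j with j | j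
      · show (if i.1 = j.1 then (1 : MvPolynomial (Fin k × Bk r × Cl l r) K) else 0) ∈ _
        split_ifs
        · exact hone
        · exact Submodule.zero_mem _
      · exact Submodule.subset_span (Or.inr ⟨(i.1, i.2, j), rfl⟩)
      · show -(C (ζ j.2)) ∈ _
        apply Submodule.neg_mem
        have h2 : (C (ζ j.2) : MvPolynomial (Fin k × Bk r × Cl l r) K) = ζ j.2 • 1 := by
          rw [smul_eq_C_mul, mul_one]
        rw [h2]
        exact Submodule.smul_mem _ _ hone
      · exact Submodule.zero_mem _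
      · exact Submodule.zero_mem _
      · exact hone
    exact fun v => hD _ _
  · refine ⟨-(((2 * r).factorial : K) ^ k) * ((Fintype.card (Cl l r) - 2 * r).factorial : K),
      ?_, ?_⟩
    · apply mul_ne_zero
      · apply neg_ne_zero.2
        exact pow_ne_zero _ (hfac _ (by omega))
      · exact hfac _ (by omega)
    · rw [Perm.aeval_permX]
      have h1 := Perm.per_reindex eR eC D
      refine h1.trans ?_
      have h2 := per_dm (κ := Fin k) (B := Bk r) (D := Cl l r) (Fl := Fl) hB (by omega) (by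
        rw [hB]
        simp only [Fintype.card_fin, Fl]
        omega) ζ' (fun x y => hζ (MvPolynomial ((Fin k × Bk r) ⊕ (Bk r ⊕ Fl))
          (MvPolynomial (Fin k × Bk r × Cl l r) K)) x y) (gx K)
      refine h2.trans ?_
      rw [map_mul, map_neg, map_pow, map_natCast, map_natCast, Fintype.card_fin]
      simp only [Fl, Fintype.card_fin]

end projection

theorem perm_bound {F : Type u} [Field F] {n k l r L : ℕ} (hr : 2 ≤ r) (hl : 2 * r ≤ l)
    (hn : n = k * (2 * r) + Fintype.card (Cl l r)) (hF : (n.factorial : F) ≠ 0)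
    (a b : Fin L → MvPolynomial (Fin n × Fin n) F) (hP : Prog a b)
    (hout : Perm.permX n F ∈ Submodule.span F
      ({1} ∪ Set.range X ∪ {h | ∃ i, h = a i * b i})) :
    r.factorial ^ (k * l) ≤ 2 ^ (k * (l * r + Fintype.card (Sb r)) + 2 * L) := by
  classical
  let K := AlgebraicClosure F
  have hK : (n.factorial : K) ≠ 0 := by
    intro h
    apply hF
    apply (algebraMap F K).injective
    rw [map_natCast, map_zero]
    exact h
  have hfac : ∀ m ≤ 2 * r, (m.factorial : K) ≠ 0 := by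
    intro m hm h
    apply hK
    have hCl : l ≤ Fintype.card (Cl l r) := by
      rw [Fintype.card_sum, Fintype.card_fin]
      omega
    obtain ⟨t, ht⟩ := Nat.factorial_dvd_factorial (show m ≤ n by omega)
    rw [ht, Nat.cast_mul, h, zero_mul]
  obtain ⟨y, hy, c, hc, hyc⟩ := exists_subst (K := K) (k := k) (by omega) hl hn hK
  have hP1 := (hP.map (K := K)).aeval y hy
  have hout1 := output_map (K := K) _ hout
  rw [Perm.map_permX] at hout1
  have hout2 := output_aeval y hy _ hout1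
  rw [hyc] at hout2
  have hout3 := Submodule.smul_mem _ c⁻¹ hout2
  rw [smul_eq_C_mul, ← mul_assoc, ← map_mul, inv_mul_cancel₀ hc, map_one, one_mul] at hout3
  have h1 := system_bound (κ := Fin k) hr hfac _ _ hP1 hout3
  rwa [Fintype.card_fin] at h1

/-- numbers -/
lemma pow_le_factorial (s : ℕ) : 2 ^ (s * 2 ^ s) ≤ 4 ^ 2 ^ s * (2 ^ s).factorial := by
  have h1 := Real.pow_div_factorial_le_exp ((2 ^ s : ℕ) : ℝ) (by positivity) (2 ^ s)
  have h2 : (0 : ℝ) < ((2 ^ s).factorial : ℝ) := by positivity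
  rw [div_le_iff₀ h2] at h1
  have h3 : Real.exp ((2 ^ s : ℕ) : ℝ) ≤ 4 ^ 2 ^ s := by
    have h4 : Real.exp ((2 ^ s : ℕ) : ℝ) = Real.exp 1 ^ 2 ^ s := by
      rw [← Real.exp_nat_mul]
      simp
    rw [h4]
    apply pow_le_pow_left₀ (Real.exp_pos 1).le
    have := Real.exp_one_lt_d9
    linarith
  have h4 : (((2 ^ s : ℕ) : ℝ)) ^ 2 ^ s ≤ 4 ^ 2 ^ s * ((2 ^ s).factorial : ℝ) :=
    h1.trans (mul_le_mul_of_nonneg_right h3 h2.le)
  rw [pow_mul]
  exact_mod_cast h4

lemma card_Sb_le (r : ℕ) : Fintype.card (Sb r) ≤ 4 ^ r := by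
  refine (Fintype.card_subtype_le _).trans ?_
  rw [Fintype.card_finset, Fintype.card_sum, Fintype.card_fin, ← two_mul, pow_mul]
  norm_num

lemma card_Sg_le (r : ℕ) : Fintype.card (Σ A : Sb r, Fin A.1.card) ≤ 2 * r * 4 ^ r := by
  rw [Fintype.card_sigma]
  have h1 : ∀ A ∈ (Finset.univ : Finset (Sb r)), Fintype.card (Fin A.1.card) ≤ 2 * r := by
    intro A _
    rw [Fintype.card_fin]
    have h2 := Finset.card_le_univ A.1
    rw [Fintype.card_sum, Fintype.card_fin] at h2
    omega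
  refine (Finset.sum_le_card_nsmul _ _ _ h1).trans ?_
  rw [smul_eq_mul, Finset.card_univ, mul_comm]
  exact Nat.mul_le_mul_left _ (card_Sb_le r)

lemma four_pow_ge (r : ℕ) (h : 8 ≤ r) : r * (8 * r + 8) ≤ 4 ^ r := by
  induction r, h using Nat.le_induction with
  | base => norm_num
  | succ r hr ih =>
    rw [pow_succ]
    nlinarith

/-- **The lower bound.** -/
theorem super_bound {F : Type u} [Field F] {n L : ℕ} (hF : (n.factorial : F) ≠ 0)
    (a b : Fin L → MvPolynomial (Fin n × Fin n) F) (hP : Prog a b)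
    (hout : Perm.permX n F ∈ Submodule.span F
      ({1} ∪ Set.range X ∪ {h | ∃ i, h = a i * b i})) :
    n ^ 2 * Nat.log 2 (Nat.log 2 n) ≤ 16 * L + 6 * n ^ 2 := by
  rcases Nat.lt_or_ge (Nat.log 2 (Nat.log 2 n)) 7 with ht | ht
  · have h1 : Nat.log 2 (Nat.log 2 n) ≤ 6 := by omega
    nlinarith [Nat.mul_le_mul_left (n ^ 2) h1]
  obtain ⟨s, hs⟩ : ∃ s, Nat.log 2 (Nat.log 2 n) = s + 2 :=
    ⟨Nat.log 2 (Nat.log 2 n) - 2, by omega⟩
  rw [hs] at ht ⊢
  have hs5 : 5 ≤ s := by omega
  obtain ⟨r, hrs⟩ : ∃ r, r = 2 ^ s := ⟨_, rfl⟩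
  have hr32 : 32 ≤ r := by
    rw [hrs]
    calc 32 = 2 ^ 5 := by norm_num
      _ ≤ 2 ^ s := Nat.pow_le_pow_right (by norm_num) hs5
  have hsr : s < r := by
    rw [hrs]
    exact Nat.lt_two_pow_self
  -- the size of `n`
  have hn0 : n ≠ 0 := by
    rintro rfl
    simp at hs
  have hlog0 : Nat.log 2 n ≠ 0 := by
    intro h
    rw [h] at hs
    simp at hs
  have h1 : 2 ^ (s + 2) ≤ Nat.log 2 n := by
    rw [← hs]
    exact Nat.pow_log_le_self 2 hlog0
  have h2 : 2 ^ (2 ^ (s + 2)) ≤ n :=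
    (Nat.pow_le_pow_right (by norm_num) h1).trans (Nat.pow_log_le_self 2 hn0)
  obtain ⟨Q, hQ⟩ : ∃ Q, Q = 4 ^ r := ⟨_, rfl⟩
  have hQn : Q * Q ≤ n := by
    refine le_trans (le_of_eq ?_) h2
    rw [hQ, ← pow_add, show (4 : ℕ) = 2 ^ 2 by norm_num, ← pow_mul, hrs, pow_add]
    congr 1
    ring
  have hQr : r * (8 * r + 8) ≤ Q := by
    rw [hQ]
    exact four_pow_ge r (by omega)
  -- the parameters
  obtain ⟨N, hN⟩ : ∃ N, N = Fintype.card ((Σ A : Sb r, Fin A.1.card) ⊕ Sb r) := ⟨_, rfl⟩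
  have hN' : N ≤ (2 * r + 1) * Q := by
    rw [hN, Fintype.card_sum, hQ]
    have h3 := card_Sg_le r
    have h4 := card_Sb_le r
    nlinarith
  obtain ⟨k, hk⟩ : ∃ k, k = n / (4 * r) := ⟨_, rfl⟩
  have hk1 : k * (4 * r) ≤ n := by
    rw [hk]
    exact Nat.div_mul_le_self _ _
  have hk2 : n < (k + 1) * (4 * r) := by
    rw [hk]
    have h3 := Nat.div_add_mod n (4 * r)
    have h4 := Nat.mod_lt n (show 4 * r > 0 by omega)
    nlinarith
  -- the number of main columns
  have hbig : (s + 2) * (4 * r + 2 * N) + Q ≤ n := by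
    have h3 : (s + 2) * (4 * r + 2 * N) ≤ (2 * r) * (4 * r + 2 * ((2 * r + 1) * Q)) := by
      apply Nat.mul_le_mul
      · omega
      · omega
    have h4 : (2 * r) * (4 * r + 2 * ((2 * r + 1) * Q)) + Q ≤ r * (8 * r + 8) * Q := by
      have h5 : 1 ≤ Q := by
        have : 1 ≤ r * (8 * r + 8) := by nlinarith
        omega
      nlinarith [Nat.mul_le_mul_left (8 * r * r) h5, Nat.mul_le_mul_left r h5]
    have h6 : r * (8 * r + 8) * Q ≤ Q * Q := Nat.mul_le_mul_right _ hQr
    omega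
  have hN4 : 4 * r + 2 * N ≤ n := by nlinarith
  obtain ⟨l, hl⟩ : ∃ l, n = k * (2 * r) + (l + N) := by
    have h3 : k * (2 * r) + N ≤ n := by nlinarith
    exact ⟨n - (k * (2 * r) + N), by omega⟩
  have hl2 : 2 * r ≤ l := by nlinarith
  have hcard : n = k * (2 * r) + Fintype.card (Cl l r) := by
    rw [Fintype.card_sum, Fintype.card_fin, ← hN]
    exact hl
  have hmain := perm_bound (k := k) (l := l) (r := r) (by omega) hl2 hcard hF a b hP hout
  -- exponents
  have hfac := pow_le_factorial s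
  rw [← hrs] at hfac
  have h3 : 2 ^ (s * r * (k * l)) ≤ 2 ^ (2 * r * (k * l) + (k * (l * r + Q) + 2 * L)) := by
    calc 2 ^ (s * r * (k * l)) = (2 ^ (s * r)) ^ (k * l) := by rw [pow_mul]
      _ ≤ (4 ^ r * r.factorial) ^ (k * l) := Nat.pow_le_pow_left hfac _
      _ = 2 ^ (2 * r * (k * l)) * r.factorial ^ (k * l) := by
          rw [mul_pow, pow_mul 2 (2 * r) (k * l), pow_mul 2 2 r]
          norm_num
      _ ≤ 2 ^ (2 * r * (k * l)) * 2 ^ (k * (l * r + Fintype.card (Sb r)) + 2 * L) :=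
          Nat.mul_le_mul_left _ hmain
      _ ≤ 2 ^ (2 * r * (k * l)) * 2 ^ (k * (l * r + Q) + 2 * L) := by
          apply Nat.mul_le_mul_left
          apply Nat.pow_le_pow_right (by norm_num)
          rw [hQ]
          have h5 := card_Sb_le r
          nlinarith [Nat.mul_le_mul_left k h5]
      _ = _ := by rw [← pow_add]
  have h4 : s * r * (k * l) ≤ 2 * r * (k * l) + (k * (l * r + Q) + 2 * L) :=
    (Nat.pow_le_pow_iff_right (by norm_num)).1 h3
  -- the final computation
  have hkQ : 8 * (k * Q) ≤ n * Q := by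
    have h5 : 8 * k ≤ n := by nlinarith
    nlinarith
  zify at h4 hl hbig hN4 hk1 hk2 hs5 hr32 hkQ ⊢
  have e1 : (4 : ℤ) * (k * r) ≥ n - 4 * r := by nlinarith
  have e2 : (2 : ℤ) * l ≥ n - 2 * N := by nlinarith
  have e3 : (0 : ℤ) ≤ n - 4 * r := by
    have : (0 : ℤ) ≤ N := by positivity
    linarith
  have e4 : (0 : ℤ) ≤ n - 2 * N := by linarith
  have e5 : ((n : ℤ) - 4 * r) * (n - 2 * N) ≤ 4 * (k * r) * (2 * l) := by
    apply mul_le_mul e1 e2 e4
    positivity
  have e6 : (n : ℤ) * n - n * (4 * r + 2 * N) ≤ 8 * (r * (k * l)) := by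
    have : (0 : ℤ) ≤ 4 * r * (2 * N) := by positivity
    nlinarith
  have e7 : ((s : ℤ) - 3) * (n * n - n * (4 * r + 2 * N)) ≤
      (s - 3) * (8 * (r * (k * l))) := mul_le_mul_of_nonneg_left e6 (by linarith)
  have e8 : ((s : ℤ) - 3) * (8 * (r * (k * l))) ≤ 8 * (k * Q) + 16 * L := by
    nlinarith
  have e9 : (n : ℤ) * ((s + 2) * (4 * r + 2 * N) + Q) ≤ n * n :=
    mul_le_mul_of_nonneg_left hbig (by positivity)
  have e10 : (0 : ℤ) ≤ n * (4 * r + 2 * N) := by positivity
  nlinarith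

end Pool.Agent.V7H63.Deg
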