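import Pool.Agent.V7H63.Deg.Direct

/-!
# A family of matrices depending triangularly on parameters
-/

set_option autoImplicit false

open MvPolynomial Finset

namespace Pool.Agent.V7H63.Deg

universe u

/-- the rows of a block -/
abbrev Bk (r : ℕ) : Type := Fin r ⊕ Fin r

/-- nonempty proper sets of rows -/
abbrev Sb (r : ℕ) : Type := {A : Finset (Bk r) // A.Nonempty ∧ A ≠ Finset.univ}

/-- the columns: main columns, groups of columns for each set, probes -/
abbrev Cl (l r : ℕ) : Type := Fin l ⊕ ((Σ A : Sb r, Fin A.1.card) ⊕ Sb r)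

section

variable {r l : ℕ}

/-- an element of a set of rows -/
noncomputable def pt (A : Sb r) : Bk r := A.2.1.choose

lemma pt_mem (A : Sb r) : pt A ∈ A.1 := A.2.1.choose_spec

lemma exists_dp (A : Sb r) : ∃ d, d ∉ A.1 := by
  by_contra h
  push Not at h
  exact A.2.2 (Finset.eq_univ_iff_forall.2 h)

/-- an element outside of a set of rows -/
noncomputable def dp (A : Sb r) : Bk r := (exists_dp A).choose

lemma dp_notMem (A : Sb r) : dp A ∉ A.1 := (exists_dp A).choose_spec

variable {R : Type u} [CommRing R]

/-- the entries of a column in the group of a set -/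
noncomputable def eA (A : Sb r) (t : R) (a : Bk r) : R :=
  if a ∈ A.1 then (if a = pt A then t else 1) else 0

/-- the entries of a probe -/
noncomputable def eP (R : Type u) [CommRing R] (A : Sb r) (a : Bk r) : R :=
  if a ∈ (Finset.univ \ A.1).erase (dp A) then 1 else 0

/-- the entries of a main column -/
def eM (y : Fin l → Fin r → R) (c : Fin l) : Bk r → R := Sum.elim 0 (y c)

/-- the entries -/
noncomputable def ent (ζ : (a : ℕ) → Fin a → R) (y : Fin l → Fin r → R) (θ : Sb r → R)
    (a : Bk r) : Cl l r → R
  | Sum.inl c => eM y c a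
  | Sum.inr (Sum.inl p) => - (ζ _ p.2 * eA p.1 (θ p.1) a)
  | Sum.inr (Sum.inr A) => eP R A a

lemma prod_eA (A : Sb r) (t : R) : ∏ a ∈ A.1, eA A t a = t := by
  have h1 : ∀ a ∈ A.1, eA A t a = if a = pt A then t else 1 := by
    intro a ha
    rw [eA, if_pos ha]
  rw [Finset.prod_congr rfl h1, Finset.prod_ite_eq', if_pos (pt_mem A)]

/-- the part of the generating polynomial without parameters -/
noncomputable def Q0 (y : Fin l → Fin r → R) : MvPolynomial (Bk r) R :=
  (∏ c, (1 + lin (eM y c))) * ∏ A : Sb r, (1 + lin (eP R A))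

/-- the product over some groups of columns -/
noncomputable def GA (y : Fin l → Fin r → R) (θ : Sb r → R) (s : Finset (Sb r)) :
    MvPolynomial (Bk r) R :=
  (∏ A ∈ s, (1 - lin (eA A (θ A)) ^ A.1.card)) * Q0 y

lemma lin_neg_mul {J : Type} [Fintype J] (z : R) (e : J → R) :
    1 + lin (fun a => -(z * e a)) = 1 - C z * lin e := by
  rw [lin, lin, Finset.mul_sum, sub_eq_add_neg, ← Finset.sum_neg_distrib]
  congr 1
  apply Finset.sum_congr rfl
  intro j _
  rw [map_neg, map_mul]
  ring

/-- the generating polynomial of all columns -/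
lemma gen_ent (ζ : (a : ℕ) → Fin a → R) (y : Fin l → Fin r → R) (θ : Sb r → R)
    (hζ : ∀ a : ℕ, 1 ≤ a → a ≤ 2 * r → ∀ q : MvPolynomial (Bk r) R,
      ∏ m, (1 - C (ζ a m) * q) = 1 - q ^ a) :
    gen (ent ζ y θ) Finset.univ = GA y θ Finset.univ := by
  have h1 : ∀ A : Sb r, ∏ m : Fin A.1.card, (1 + lin fun a => -(ζ _ m * eA A (θ A) a)) =
      1 - lin (eA A (θ A)) ^ A.1.card := by
    intro A
    simp only [lin_neg_mul]
    apply hζ
    · exact Finset.card_pos.2 A.2.1
    · have h2 := Finset.card_le_univ A.1
      rw [Fintype.card_sum, Fintype.card_fin] at h2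
      omega
  rw [gen, Fintype.prod_sum_type, Fintype.prod_sum_type, Fintype.prod_sigma, GA, Q0]
  have h2 : ∀ A : Sb r, ∏ m : Fin A.1.card, (1 + lin fun a =>
      ent ζ y θ a (Sum.inr (Sum.inl ⟨A, m⟩))) = 1 - lin (eA A (θ A)) ^ A.1.card := by
    intro A
    rw [← h1]
    rfl
  rw [Finset.prod_congr rfl (fun A _ => h2 A)]
  have h3 : ∏ c : Fin l, (1 + lin fun a => ent ζ y θ a (Sum.inl c)) =
      ∏ c, (1 + lin (eM y c)) := rfl
  have h4 : ∏ A : Sb r, (1 + lin fun a => ent ζ y θ a (Sum.inr (Sum.inr A))) =
      ∏ A : Sb r, (1 + lin (eP R A)) := rfl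
  rw [h3, h4]
  ring

lemma GA_insert (y : Fin l → Fin r → R) (θ : Sb r → R) (s : Finset (Sb r)) (A : Sb r)
    (hA : A ∉ s) (Y : Finset (Bk r)) :
    cf Y (GA y θ (insert A s)) = cf Y (GA y θ s) -
      if A.1 ⊆ Y then A.1.card.factorial * (θ A * cf (Y \ A.1) (GA y θ s)) else 0 := by
  rw [GA, Finset.prod_insert hA, mul_assoc, ← GA, sub_mul, one_mul, cf_sub,
    cf_pow_card_mul A.1 (eA A (θ A)) (fun j hj => by rw [eA, if_neg hj]), prod_eA]

lemma GA_congr (y : Fin l → Fin r → R) (θ θ' : Sb r → R) (s : Finset (Sb r))
    (Y : Finset (Bk r)) (h : ∀ A : Sb r, A.1.card ≤ Y.card → θ A = θ' A) :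
    cf Y (GA y θ s) = cf Y (GA y θ' s) := by
  induction s using Finset.induction_on generalizing Y with
  | empty => simp [GA]
  | insert A s hA ih =>
    rw [GA_insert y θ s A hA, GA_insert y θ' s A hA, ih Y h]
    congr 1
    split_ifs with hsub
    · rw [h A (Finset.card_le_card hsub), ih (Y \ A.1) (fun A' hA' => h A' (hA'.trans
        (Finset.card_le_card Finset.sdiff_subset)))]
    · rfl

lemma GA_congr' (y : Fin l → Fin r → R) (θ θ' : Sb r → R) (s : Finset (Sb r)) (A0 : Sb r)
    (hA0 : A0 ∉ s) (h : ∀ A : Sb r, A.1.card < A0.1.card → θ A = θ' A) :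
    cf A0.1 (GA y θ s) = cf A0.1 (GA y θ' s) := by
  induction s using Finset.induction_on with
  | empty => simp [GA]
  | insert A s hA ih =>
    rw [Finset.mem_insert, not_or] at hA0
    rw [GA_insert y θ s A hA, GA_insert y θ' s A hA, ih hA0.2]
    congr 1
    split_ifs with hsub
    · have h1 : A.1.card < A0.1.card := by
        apply Finset.card_lt_card
        rw [Finset.ssubset_iff_subset_ne]
        refine ⟨hsub, ?_⟩
        intro h2
        exact hA0.1 (Subtype.ext h2.symm)
      rw [h A h1, GA_congr y θ θ' s (A0.1 \ A.1)]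
      intro A' hA'
      apply h
      apply lt_of_le_of_lt hA'
      apply Finset.card_lt_card
      refine ⟨Finset.sdiff_subset, ?_⟩
      intro h3
      have h4 := h3 (hsub (pt_mem A))
      rw [Finset.mem_sdiff] at h4
      exact h4.2 (pt_mem A)
    · rfl

lemma cf_empty {J : Type} [Fintype J] [DecidableEq J] (q : MvPolynomial J R) :
    cf ∅ q = constantCoeff q := by
  rw [cf, constantCoeff_eq]
  congr 1
  ext j
  simp [ind_apply]

lemma constantCoeff_lin {J : Type} [Fintype J] (e : J → R) : constantCoeff (lin e) = 0 := by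
  rw [lin, map_sum]
  simp

lemma cf_empty_GA (y : Fin l → Fin r → R) (θ : Sb r → R) (s : Finset (Sb r)) :
    cf ∅ (GA y θ s) = 1 := by
  rw [cf_empty, GA, Q0, map_mul, map_mul, map_prod, map_prod, map_prod]
  simp only [map_add, map_sub, map_one, map_pow, constantCoeff_lin, add_zero,
    Finset.prod_const_one, mul_one]
  apply Finset.prod_eq_one
  intro A _
  rw [zero_pow (Finset.card_pos.2 A.2.1).ne', sub_zero]

/-- triangularity -/
lemma pi_tri (ζ : (a : ℕ) → Fin a → R) (y : Fin l → Fin r → R) (θ θ' : Sb r → R)
    (hζ : ∀ a : ℕ, 1 ≤ a → a ≤ 2 * r → ∀ q : MvPolynomial (Bk r) R,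
      ∏ m, (1 - C (ζ a m) * q) = 1 - q ^ a)
    (A : Sb r) (h : ∀ A' : Sb r, A'.1.card < A.1.card → θ A' = θ' A') :
    pi (ent ζ y θ) Finset.univ A.1 + A.1.card.factorial * θ A =
      pi (ent ζ y θ') Finset.univ A.1 + A.1.card.factorial * θ' A := by
  have h1 : ∀ θ : Sb r → R, pi (ent ζ y θ) Finset.univ A.1 =
      cf A.1 (GA y θ (Finset.univ.erase A)) - A.1.card.factorial * θ A := by
    intro θ
    have h2 := GA_insert y θ (Finset.univ.erase A) A (Finset.notMem_erase _ _) A.1
    rw [Finset.insert_erase (Finset.mem_univ _), if_pos (Finset.Subset.refl _),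
      Finset.sdiff_self, cf_empty_GA, mul_one] at h2
    rw [pi, gen_ent ζ y θ hζ, h2]
  rw [h1, h1, GA_congr' y θ θ' _ A (Finset.notMem_erase _ _) h]
  ring

/-- the values prescribed -/
noncomputable def star (K : Type u) [Field K] (A : Finset (Bk r)) : K :=
  ∑ i : Fin r, if (Finset.univ \ A).toLeft = {i} ∧ (Finset.univ \ A).toRight.card = i + 1
    then (-1) ^ (i.1 + 1) * ((i.1 + 1).factorial : K)⁻¹ else 0

lemma star_eq (K : Type u) [Field K] (i : Fin r) (T : Finset (Fin r)) :
    star K (((Finset.univ : Finset (Bk r)).erase (Sum.inl i)) \ T.map Function.Embedding.inr) =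
      if T.card = i + 1 then (-1) ^ (i.1 + 1) * ((i.1 + 1).factorial : K)⁻¹ else 0 := by
  have h1 : (Finset.univ \ (((Finset.univ : Finset (Bk r)).erase (Sum.inl i)) \
      T.map Function.Embedding.inr)).toLeft = {i} := by
    ext j
    simp
  have h2 : (Finset.univ \ (((Finset.univ : Finset (Bk r)).erase (Sum.inl i)) \
      T.map Function.Embedding.inr)).toRight = T := by
    ext j
    simp
  rw [star, h1, h2, Finset.sum_eq_single i]
  · simp
  · intro j _ hj
    rw [if_neg]
    rintro ⟨h3, -⟩
    exact hj (Finset.singleton_injective h3).symm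
  · intro h
    exact absurd (Finset.mem_univ _) h

/-- the output of a matrix with the prescribed values -/
lemma pi_output {K : Type u} [Field K] [Algebra K R] (hr : 2 ≤ r)
    (hK : ∀ m ≤ 2 * r, (m.factorial : K) ≠ 0) (ζ : (a : ℕ) → Fin a → R)
    (y : Fin l → Fin r → R) (θ : Sb r → R)
    (h : ∀ A : Sb r, pi (ent ζ y θ) Finset.univ A.1 = algebraMap K R (star K A.1))
    (c : Fin l) (i : Fin r) :
    pi (ent ζ y θ) (Finset.univ.erase (Sum.inl c)) (Finset.univ.erase (Sum.inl i)) =
      ∑ T ∈ Finset.powersetCard (i + 1) (Finset.univ : Finset (Fin r)), ∏ j ∈ T, y c j := by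
  rw [pi_erase _ _ _ (Finset.mem_univ _)]
  have h1 : ∑ T ∈ ((Finset.univ : Finset (Bk r)).erase (Sum.inl i)).powerset,
      (-1) ^ T.card * (T.card.factorial : R) * (∏ a ∈ T, ent ζ y θ a (Sum.inl c)) *
        pi (ent ζ y θ) Finset.univ (((Finset.univ : Finset (Bk r)).erase (Sum.inl i)) \ T) =
      ∑ T ∈ ((Finset.univ : Finset (Fin r)).powerset).map
        (Finset.mapEmbedding Function.Embedding.inr).toEmbedding,
      (-1) ^ T.card * (T.card.factorial : R) * (∏ a ∈ T, ent ζ y θ a (Sum.inl c)) *
        pi (ent ζ y θ) Finset.univ (((Finset.univ : Finset (Bk r)).erase (Sum.inl i)) \ T) := by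
    symm
    apply Finset.sum_subset
    · intro T hT
      rw [Finset.mem_map] at hT
      obtain ⟨T', -, rfl⟩ := hT
      rw [Finset.mem_powerset]
      intro a ha
      have ha' : a ∈ T'.map Function.Embedding.inr := ha
      rw [Finset.mem_map] at ha'
      obtain ⟨j, -, rfl⟩ := ha'
      simp
    · intro T hT hT'
      have h2 : ∃ j, Sum.inl j ∈ T := by
        by_contra h3
        push Not at h3
        apply hT'
        rw [Finset.mem_map]
        refine ⟨T.toRight, by simp, ?_⟩
        ext a
        rcases a with j | j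
        · simp [h3 j]
        · simp
      obtain ⟨j, hj⟩ := h2
      rw [Finset.prod_eq_zero hj]
      · ring
      · rfl
  rw [h1, Finset.sum_map]
  have h2 : ∀ T ∈ (Finset.univ : Finset (Fin r)).powerset,
      (-1) ^ ((Finset.mapEmbedding Function.Embedding.inr).toEmbedding T : Finset (Bk r)).card *
        (((Finset.mapEmbedding Function.Embedding.inr).toEmbedding T :
          Finset (Bk r)).card.factorial : R) *
        (∏ a ∈ ((Finset.mapEmbedding Function.Embedding.inr).toEmbedding T : Finset (Bk r)),
          ent ζ y θ a (Sum.inl c)) *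
        pi (ent ζ y θ) Finset.univ (((Finset.univ : Finset (Bk r)).erase (Sum.inl i)) \
          ((Finset.mapEmbedding Function.Embedding.inr).toEmbedding T)) =
      if T.card = i + 1 then ∏ j ∈ T, y c j else 0 := by
    intro T _
    have h3 : ((Finset.mapEmbedding Function.Embedding.inr).toEmbedding T : Finset (Bk r)) =
      T.map Function.Embedding.inr := rfl
    rw [h3, Finset.card_map, Finset.prod_map]
    have hmem : (((Finset.univ : Finset (Bk r)).erase (Sum.inl i)) \
        T.map Function.Embedding.inr).Nonempty ∧ (((Finset.univ : Finset (Bk r)).erase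
          (Sum.inl i)) \ T.map Function.Embedding.inr) ≠ Finset.univ := by
      constructor
      · obtain ⟨j, hj⟩ : ∃ j : Fin r, j ≠ i := by
          have : Nontrivial (Fin r) := Fin.nontrivial_iff_two_le.2 hr
          exact exists_ne i
        refine ⟨Sum.inl j, ?_⟩
        simp [hj]
      · intro h4
        have h5 : (Sum.inl i : Bk r) ∈ (((Finset.univ : Finset (Bk r)).erase (Sum.inl i)) \
          T.map Function.Embedding.inr) := by
          rw [h4]
          exact Finset.mem_univ _
        simp at h5
    rw [h ⟨_, hmem⟩, star_eq]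
    have h4 : ∏ x ∈ T, ent ζ y θ (Function.Embedding.inr x) (Sum.inl c) = ∏ j ∈ T, y c j := rfl
    rw [h4]
    split_ifs with h5
    · rw [h5]
      have h6 : ((i.1 + 1).factorial : R) * algebraMap K R (((i.1 + 1).factorial : K)⁻¹) = 1 := by
        rw [← map_natCast (algebraMap K R), ← map_mul, mul_inv_cancel₀, map_one]
        apply hK
        have := i.2
        omega
      rw [map_mul, map_pow, map_neg, map_one]
      have h7 : ((-1) ^ (i.1 + 1) : R) * (-1) ^ (i.1 + 1) = 1 := by
        rw [← mul_pow]
        simp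
      calc (-1) ^ (i.1 + 1) * ((i.1 + 1).factorial : R) * (∏ j ∈ T, y c j) *
            ((-1) ^ (i.1 + 1) * algebraMap K R (((i.1 + 1).factorial : K)⁻¹))
          = ((-1) ^ (i.1 + 1) * (-1) ^ (i.1 + 1)) * (((i.1 + 1).factorial : R) *
            algebraMap K R (((i.1 + 1).factorial : K)⁻¹)) * (∏ j ∈ T, y c j) := by ring
        _ = ∏ j ∈ T, y c j := by rw [h6, h7, one_mul, one_mul]
    · rw [map_zero, mul_zero]
  rw [Finset.sum_congr rfl h2, Finset.powersetCard_eq_filter, Finset.sum_filter]

/-- all the values are in the span of the outputs -/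
lemma pi_mem_span {K : Type u} [Field K] [Algebra K R]
    (hK : ∀ m ≤ 2 * r, (m.factorial : K) ≠ 0) (ζ : (a : ℕ) → Fin a → R)
    (y : Fin l → Fin r → R) (θ : Sb r → R) (W : Submodule K R)
    (hW : ∀ (c : Cl l r) (a : Bk r),
      pi (ent ζ y θ) (Finset.univ.erase c) (Finset.univ.erase a) ∈ W) (A : Sb r) :
    pi (ent ζ y θ) Finset.univ A.1 ∈ W := by
  have hmain : ∀ m : ℕ, ∀ A : Sb r, 2 * r - A.1.card ≤ m →
      pi (ent ζ y θ) Finset.univ A.1 ∈ W := by
    intro m
    induction m with
    | zero =>
      intro A hA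
      exfalso
      have h1 : A.1.card < (Finset.univ : Finset (Bk r)).card :=
        Finset.card_lt_card ⟨Finset.subset_univ _, fun h => A.2.2 (Finset.univ_subset_iff.1 h)⟩
      rw [Finset.card_univ, Fintype.card_sum, Fintype.card_fin] at h1
      omega
    | succ m ih =>
      intro A hA
      have h1 := hW (Sum.inr (Sum.inr A)) (dp A)
      rw [pi_erase _ _ _ (Finset.mem_univ _)] at h1
      let T0 : Finset (Bk r) := (Finset.univ \ A.1).erase (dp A)
      have hT0 : T0 ∈ ((Finset.univ : Finset (Bk r)).erase (dp A)).powerset := by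
        rw [Finset.mem_powerset]
        exact Finset.erase_subset_erase _ (Finset.subset_univ _)
      rw [← Finset.add_sum_erase _ _ hT0] at h1
      have h2 : ∑ T ∈ ((Finset.univ : Finset (Bk r)).erase (dp A)).powerset.erase T0,
          (-1) ^ T.card * (T.card.factorial : R) *
          (∏ a ∈ T, ent ζ y θ a (Sum.inr (Sum.inr A))) *
          pi (ent ζ y θ) Finset.univ (((Finset.univ : Finset (Bk r)).erase (dp A)) \ T) ∈ W := by
        apply Submodule.sum_mem
        intro T hT
        rw [Finset.mem_erase, Finset.mem_powerset] at hT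
        by_cases hsub : T ⊆ T0
        · have h3 : ∏ a ∈ T, ent ζ y θ a (Sum.inr (Sum.inr A)) = 1 := by
            apply Finset.prod_eq_one
            intro a ha
            show eP R A a = 1
            rw [eP, if_pos (hsub ha)]
          have hss : T ⊂ T0 := lt_of_le_of_ne hsub hT.1
          obtain ⟨a0, ha0, ha0'⟩ := Finset.exists_of_ssubset hss
          have hAsub : A.1 ⊆ ((Finset.univ : Finset (Bk r)).erase (dp A)) \ T := by
            intro a ha
            rw [Finset.mem_sdiff, Finset.mem_erase]
            refine ⟨⟨?_, Finset.mem_univ _⟩, ?_⟩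
            · rintro rfl
              exact dp_notMem A ha
            · intro h4
              have h5 := hsub h4
              simp only [T0, Finset.mem_erase, Finset.mem_sdiff] at h5
              exact h5.2.2 ha
          have hlt : A.1.card < (((Finset.univ : Finset (Bk r)).erase (dp A)) \ T).card := by
            apply Finset.card_lt_card
            refine ⟨hAsub, ?_⟩
            intro h4
            simp only [T0, Finset.mem_erase, Finset.mem_sdiff] at ha0
            exact ha0.2.2 (h4 (by
              rw [Finset.mem_sdiff, Finset.mem_erase]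
              exact ⟨⟨ha0.1, Finset.mem_univ _⟩, ha0'⟩))
          have h4 := ih ⟨((Finset.univ : Finset (Bk r)).erase (dp A)) \ T, by
            constructor
            · exact A.2.1.mono hAsub
            · intro h5
              have h6 : dp A ∈ ((Finset.univ : Finset (Bk r)).erase (dp A)) \ T := by
                rw [h5]
                exact Finset.mem_univ _
              simp at h6⟩ (by
            show 2 * r - (((Finset.univ : Finset (Bk r)).erase (dp A)) \ T).card ≤ m
            omega)
          rw [h3, mul_one]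
          have h5 : (-1) ^ T.card * (T.card.factorial : R) *
              pi (ent ζ y θ) Finset.univ (((Finset.univ : Finset (Bk r)).erase (dp A)) \ T) =
              ((-1) ^ T.card * (T.card.factorial : K)) •
              pi (ent ζ y θ) Finset.univ
                (((Finset.univ : Finset (Bk r)).erase (dp A)) \ T) := by
            rw [Algebra.smul_def, map_mul, map_pow, map_neg, map_one, map_natCast]
          rw [h5]
          exact Submodule.smul_mem _ _ h4
        · obtain ⟨a, ha, ha'⟩ := Finset.not_subset.1 hsub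
          have h3 : ent ζ y θ a (Sum.inr (Sum.inr A)) = 0 := by
            show eP R A a = 0
            rw [eP, if_neg ha']
          rw [Finset.prod_eq_zero ha h3, mul_zero, zero_mul]
          exact Submodule.zero_mem _
      have h3 := Submodule.sub_mem W h1 h2
      rw [add_sub_cancel_right] at h3
      have h4 : ∏ a ∈ T0, ent ζ y θ a (Sum.inr (Sum.inr A)) = 1 := by
        apply Finset.prod_eq_one
        intro a ha
        show eP R A a = 1
        rw [eP, if_pos ha]
      have h5 : ((Finset.univ : Finset (Bk r)).erase (dp A)) \ T0 = A.1 := by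
        ext a
        simp only [T0, Finset.mem_sdiff, Finset.mem_erase, Finset.mem_univ, and_true, true_and,
          not_and, not_not, ne_eq]
        constructor
        · rintro ⟨h6, h7⟩
          exact h7 h6
        · intro h6
          refine ⟨?_, fun _ => h6⟩
          rintro rfl
          exact dp_notMem A h6
      rw [h4, mul_one, h5] at h3
      have hcard : T0.card ≤ 2 * r := by
        have h6 := Finset.card_le_univ T0
        rw [Fintype.card_sum, Fintype.card_fin] at h6
        omega
      have h6 : pi (ent ζ y θ) Finset.univ A.1 =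
          (((-1) ^ T0.card * (T0.card.factorial : K))⁻¹) •
          ((-1) ^ T0.card * (T0.card.factorial : R) * pi (ent ζ y θ) Finset.univ A.1) := by
        have h7 : (-1) ^ T0.card * (T0.card.factorial : R) * pi (ent ζ y θ) Finset.univ A.1 =
            ((-1) ^ T0.card * (T0.card.factorial : K)) • pi (ent ζ y θ) Finset.univ A.1 := by
          rw [Algebra.smul_def, map_mul, map_pow, map_neg, map_one, map_natCast]
        rw [h7, smul_smul, inv_mul_cancel₀, one_smul]
        apply mul_ne_zero
        · exact pow_ne_zero _ (neg_ne_zero.2 one_ne_zero)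
        · exact hK _ hcard
      rw [h6]
      exact Submodule.smul_mem _ _ h3
  exact hmain _ A le_rfl

end

end Pool.Agent.V7H63.Deg
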